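import Pool.Agent.N95.HN.Mv
import Pool.Agent.N95.HK.Lv

/-!
Heights of the values of correspondences, over function fields, at all algebraic points.
-/

set_option autoImplicit false
set_option linter.unusedSectionVars false
set_option linter.overlappingInstances false

open FF IntermediateField

namespace Pool.Agent.N95.HN

open Pool.Agent.N111.GJ (Corr GenericPair point_desc mon_map spec_point prod_single)
open Pool.Agent.W603.PV Pool.Agent.W603.LV
open Pool.Agent.N95.HK (ring_int)
open Pool.Agent.TH145.MG (DimLE)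

section poly

variable (k : Type) {F : Type} [Field k] [Field F] [IsAlgClosed k] [CharZero k] [Algebra k F]
  [IsFF k F]

/-- heights of the values of polynomials -/
theorem poly_hgt {q : ℕ} (P : MvPolynomial (Fin q) F) : ∃ A : ℕ, ∀ (E : Type) [Field E]
      [Algebra k E] [Algebra F E] [IsScalarTower k F E] [FiniteDimensional F E] [IsFF k E]
      (v : Fin q → E) (H : ℤ), 0 ≤ H → (∀ i, hgt k (v i) ≤ H) →
      hgt k (MvPolynomial.aeval v P) ≤ A * (H + Module.finrank F E) := by
  classical
  refine ⟨P.totalDegree * q + ∑ α ∈ P.support, (hgt k (P.coeff α)).toNat,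
    fun E _ _ _ _ _ _ v H hH hv => ?_⟩
  refine (hgt_mvpolyF (k := k) v P).trans ?_
  have h1 : ∑ a, hgt k (v a) ≤ q * H := by
    refine (Finset.sum_le_sum fun a _ => hv a).trans (le_of_eq ?_)
    rw [Finset.sum_const, Finset.card_univ, Fintype.card_fin, nsmul_eq_mul]
  have h2 : ∑ α ∈ P.support, hgt k (algebraMap F E (P.coeff α)) =
      (∑ α ∈ P.support, ((hgt k (P.coeff α)).toNat : ℤ)) * Module.finrank F E := by
    rw [Finset.sum_mul]
    refine Finset.sum_congr rfl fun α _ => ?_
    rw [hgt_algebraMap, Int.toNat_of_nonneg (hgt_nonneg _), mul_comm]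
  rw [h2]
  have h3 : (0 : ℤ) ≤ Module.finrank F E := by positivity
  have h4 := mul_le_mul_of_nonneg_left h1 (show (0 : ℤ) ≤ P.totalDegree by positivity)
  have h5 : (0 : ℤ) ≤ ∑ α ∈ P.support, ((hgt k (P.coeff α)).toNat : ℤ) :=
    Finset.sum_nonneg fun α _ => by positivity
  push_cast
  have h6 : (0 : ℤ) ≤ (P.totalDegree : ℤ) * q := by positivity
  nlinarith [mul_nonneg h5 hH, mul_nonneg h6 h3]

/-- heights of the roots of polynomials -/
theorem rel_hgtF {q : ℕ} (d : ℕ) (P : ℕ → MvPolynomial (Fin q) F) : ∃ A : ℕ, ∀ (E : Type)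
      [Field E] [Algebra k E] [Algebra F E] [IsScalarTower k F E] [FiniteDimensional F E]
      [IsFF k E] (v : Fin q → E) (t : E) (H : ℤ), 0 ≤ H → (∀ i, hgt k (v i) ≤ H) →
      MvPolynomial.aeval v (P d) ≠ 0 →
      ∑ i ∈ Finset.range (d + 1), MvPolynomial.aeval v (P i) * t ^ i = 0 →
      hgt k t ≤ A * (H + Module.finrank F E) := by
  classical
  choose A hA using fun i => poly_hgt k (P i)
  refine ⟨∑ i ∈ Finset.range d, (A i + A d), fun E _ _ _ _ _ _ v t H hH hv hd h => ?_⟩
  have h0 : ∀ i, hgt k (MvPolynomial.aeval v (P i)) ≤ A i * (H + Module.finrank F E) := fun i =>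
    hA i E v H hH hv
  rw [Finset.sum_range_succ] at h
  have h1 : t ^ d = ∑ i : Fin d, (-(MvPolynomial.aeval v (P i)) / MvPolynomial.aeval v (P d)) *
      t ^ (i : ℕ) := by
    have h2 : MvPolynomial.aeval v (P d) * t ^ d =
        -∑ i ∈ Finset.range d, MvPolynomial.aeval v (P i) * t ^ i := by
      linear_combination h
    have h3 : t ^ d = (-∑ i ∈ Finset.range d, MvPolynomial.aeval v (P i) * t ^ i) /
        MvPolynomial.aeval v (P d) := by
      rw [eq_div_iff hd, mul_comm]
      exact h2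
    rw [h3, Finset.sum_range, neg_div, Finset.sum_div, ← Finset.sum_neg_distrib]
    refine Finset.sum_congr rfl fun i _ => ?_
    ring
  refine (Pool.Agent.TH145.MG.root_hgt d _ t h1).trans ?_
  rw [Finset.sum_range]
  push_cast
  rw [Finset.sum_mul]
  refine Finset.sum_le_sum fun i _ => ?_
  rw [div_eq_mul_inv]
  refine (Pool.Agent.TH145.MW.hgt_mul_le _ _).trans ?_
  rw [hgt_inv, Pool.Agent.TH145.MW.hgt_neg]
  have h3 := h0 i
  have h4 := h0 d
  rw [add_mul]
  linarith

end poly

/-- regularity of the values of polynomials -/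
theorem ge_poly {k F E : Type} [Field k] [Field F] [Field E] [Algebra k E] [Algebra F E] {q : ℕ}
    {Q : Place k E} (P : MvPolynomial (Fin q) F)
    (hP : ∀ α ∈ P.support, Ge Q 0 (algebraMap F E (P.coeff α))) {v : Fin q → E}
    (hv : ∀ j, Ge Q 0 (v j)) : Ge Q 0 (MvPolynomial.aeval v P) := by
  classical
  rw [MvPolynomial.aeval_def, MvPolynomial.eval₂_eq']
  refine Ge.sum _ _ fun α hα => ?_
  have h1 := Pool.Agent.Y735.R2.ge_prod Q Finset.univ (fun i => v i ^ α i) (fun _ => 0)
    fun i _ => by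
      have h2 := Pool.Agent.Y735.R2.ge_prod Q (Finset.range (α i)) (fun _ => v i) (fun _ => 0)
        fun _ _ => hv i
      rwa [Finset.sum_const_zero, Finset.prod_const, Finset.card_range] at h2
  rw [Finset.sum_const_zero] at h1
  have h2 := (hP α hα).mul h1
  rwa [zero_add] at h2

section

variable {F0 F : Type} [Field F0] [Field F] [Algebra F0 F] {ℒ : Type} [Field ℒ] [Algebra F ℒ]
  {N : ℕ} {u : Fin N → ℒ}

/-- integral equations -/
theorem int_rel {W : Corr F0 F u} (y : W.ring) : ∃ (n : ℕ) (P : ℕ → MvPolynomial (Fin N) F),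
    y ^ n + ∑ i ∈ Finset.range n, MvPolynomial.aeval W.uR (P i) * y ^ i = 0 := by
  obtain ⟨n, e, he⟩ := Pool.Agent.Y735.LB.exists_monic (ring_int y)
  have hP : ∀ i, ∃ P : MvPolynomial (Fin N) F, MvPolynomial.aeval u P = (e i : ℒ) := by
    intro i
    obtain ⟨b, hb⟩ := e i
    change ∃ P : MvPolynomial (Fin N) F, MvPolynomial.aeval u P = b
    rw [Algebra.adjoin_range_eq_range_aeval] at hb
    exact hb
  choose P hP using hP
  refine ⟨n, P, ?_⟩
  apply Subtype.ext
  refine Eq.trans ?_ he
  rw [AddMemClass.coe_add, SubmonoidClass.coe_pow, AddSubmonoidClass.coe_finsetSum]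
  congr 1
  refine Finset.sum_congr rfl fun i _ => ?_
  rw [MulMemClass.coe_mul, SubmonoidClass.coe_pow, W.ring_aeval, hP]
  rfl

/-- The degree of the field of the values. -/
theorem deg_le {W : Corr F0 F u} {Ω : Type} [Field Ω] [IsAlgClosed Ω] [CharZero F] [Algebra F Ω]
    {r : ℕ} (hr : ∀ s : Fin N → Ω, {φ : W.ring →ₐ[F] Ω | W.Over φ s}.encard ≤ r) {L : Type}
    [Field L] [Algebra F L] [Algebra L Ω] [IsScalarTower F L Ω] [Algebra.IsAlgebraic L Ω]
    {f : Fin N → L} {φ : W.ring →ₐ[F] Ω} (hφ : W.Over φ fun j => algebraMap L Ω (f j)) :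
    FiniteDimensional L (adjoin L (W.values φ)) ∧
      Module.finrank L (adjoin L (W.values φ)) ≤ r := by
  classical
  have hcL : CharZero L := charZero_of_injective_algebraMap (algebraMap F L).injective
  have hfin : (W.values φ).Finite := by
    refine (W.mons_fin.image φ).subset ?_
    rintro _ ⟨y, hy, rfl⟩
    exact ⟨y, hy, rfl⟩
  have hfs : Finite (W.values φ) := hfin
  have hfd : FiniteDimensional L (adjoin L (W.values φ)) :=
    IntermediateField.finiteDimensional_adjoin fun x _ => Algebra.IsIntegral.isIntegral x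
  refine ⟨hfd, ?_⟩
  let E := adjoin L (W.values φ)
  have hmem : ∀ b, φ b ∈ E := by
    intro b
    induction b using W.induct with
    | hu j =>
      rw [hφ j _ rfl]
      exact E.algebraMap_mem _
    | hy y' hy' => exact subset_adjoin _ _ ⟨y', hy', rfl⟩
    | hc c =>
      rw [AlgHom.commutes, IsScalarTower.algebraMap_apply F L Ω]
      exact E.algebraMap_mem _
    | hadd a b ha hb =>
      rw [map_add]
      exact add_mem ha hb
    | hmul a b ha hb =>
      rw [map_mul]
      exact mul_mem ha hb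
  let φ' : W.ring →ₐ[F] E :=
    { toFun := fun y => ⟨φ y, hmem y⟩
      map_one' := Subtype.ext (map_one φ)
      map_mul' := fun a b => Subtype.ext (map_mul φ a b)
      map_zero' := Subtype.ext (map_zero φ)
      map_add' := fun a b => Subtype.ext (map_add φ a b)
      commutes' := fun c => Subtype.ext (φ.commutes c) }
  let G : (E →ₐ[L] Ω) → (W.ring →ₐ[F] Ω) := fun σ => (σ.restrictScalars F).comp φ'
  have hG : ∀ σ b, G σ b = σ (φ' b) := fun _ _ => rfl
  have h1 : (Set.univ : Set (E →ₐ[L] Ω)).encard ≤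
      {ψ : W.ring →ₐ[F] Ω | W.Over ψ fun j => algebraMap L Ω (f j)}.encard := by
    refine Set.encard_le_encard_of_injOn (f := G) (fun σ _ j y hy => ?_) fun σ _ τ _ hστ => ?_
    · rw [hG]
      have h2 : φ' y = algebraMap L E (f j) := Subtype.ext (hφ j y hy)
      rw [h2, AlgHom.commutes]
    · have h2 : ∀ v (hv : v ∈ W.values φ), σ ⟨v, subset_adjoin _ _ hv⟩ =
          τ ⟨v, subset_adjoin _ _ hv⟩ := by
        rintro _ ⟨y, hy, rfl⟩
        exact DFunLike.congr_fun hστ y
      exact IntermediateField.adjoin_algHom_ext L fun x hx => h2 x hx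
  have h2 : (Set.univ : Set (E →ₐ[L] Ω)).encard = Module.finrank L E := by
    rw [Set.encard_univ, ENat.card_eq_coe_fintype_card, AlgHom.card]
  rw [h2] at h1
  exact_mod_cast h1.trans (hr _)

end

/-- The closed subset is defined over the field `F0`. -/
def DefinedOver {F0 F : Type} [Field F0] [Field F] [Algebra F0 F] (X : GenericPair F0 F) : Prop :=
  ∃ V₀ : Set (MvPolynomial (Fin (X.n + 1)) F0), DimLE F0 V₀ X.m ∧
    X.V = MvPolynomial.map (algebraMap F0 (algebraicClosure F0 F)) '' V₀

/-- The places at which some of the coordinates have poles. -/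
def poles (k : Type) {L : Type} [Field k] [Field L] [Algebra k L] {N : ℕ} (f : Fin N → L) :
    Set (Place k L) :=
  {P | ∃ j, ¬ P.Reg (f j)}

theorem poles_finite {k L : Type} [Field k] [Field L] [IsAlgClosed k] [CharZero k] [Algebra k L]
    [IsFF k L] {N : ℕ} (f : Fin N → L) : (poles k f).Finite := by
  refine (Set.finite_iUnion fun j => finite_support (k := k) (f j)).subset ?_
  rintro Q ⟨j, hj⟩
  refine Set.mem_iUnion.2 ⟨j, ?_⟩
  intro h0
  apply hj
  exact Or.inr (le_of_eq h0.symm)

section values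

variable {k0 k F0 F : Type} [Field k0] [Field k] [Field F0] [Field F] [IsAlgClosed k]
    [CharZero k] [Algebra k0 k] [Algebra k F] [Algebra k0 F] [IsScalarTower k0 k F]
    [Algebra k0 F0] [Algebra F0 F] [IsScalarTower k0 F0 F] [IsFF k F]
    {ℒ : Type} [Field ℒ] [Algebra F ℒ] {N : ℕ} {u : Fin N → ℒ}

/-- **Heights of the values of correspondences.** -/
theorem values_boundF (hfg : ∃ S : Finset F0, IntermediateField.adjoin k0 (S : Set F0) = ⊤)
    (W : Corr F0 F u) (hV : DefinedOver W.X) {r : ℕ} {Ω : Type} [Field Ω] [IsAlgClosed Ω]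
    [Algebra F Ω] [Algebra.IsAlgebraic F Ω] [Algebra k Ω]
    (hr : ∀ s : Fin N → Ω, {φ : W.ring →ₐ[F] Ω | W.Over φ s}.encard ≤ r)
    (hd : 2 * W.X.m + 2 * r ≤ W.X.size) :
    ∃ A : ℕ, ∀ (L : Type) [Field L] [Algebra k L] [Algebra F L] [IsScalarTower k F L]
      [FiniteDimensional F L] [IsFF k L] [Algebra L Ω] [IsScalarTower F L Ω] [IsScalarTower k L Ω]
      (f : Fin N → L) (φ : W.ring →ₐ[F] Ω), W.Over φ (fun j => algebraMap L Ω (f j)) →
      ∃ (E : IntermediateField L Ω) (_ : FiniteDimensional L E) (φ' : W.ring →ₐ[F] E),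
        Module.finrank L E ≤ r ∧ (∀ y, ((φ' y : E) : Ω) = φ y) ∧
        ∀ y : W.ring, (y : W.L') ∈ W.mons → hgt k (φ' y) ≤
          A * (max (canDeg k L + (poles k f).ncard) 0 + Module.finrank F L) := by
  classical
  have hcF : CharZero F := charZero_of_injective_algebraMap (algebraMap k F).injective
  obtain ⟨V₀, hV₀, hV₀X⟩ := hV
  obtain ⟨B, hB⟩ := log_boundF (k := k) hfg V₀ hV₀ W.X.F W.X.d W.X.F_form W.X.I₀ W.X.coeff_ne
    (W.X.generic.comp (fun p : {p : W.X.A × (Fin (W.X.n + 1) →₀ ℕ) //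
      p.2.degree = W.X.d p.1 ∧ p.2 ≠ W.X.I₀ p.1} => ⟨p.1.1, p.1.2, p.2.1, p.2.2⟩) (by
        rintro ⟨⟨a, I⟩, h1, h2⟩ ⟨⟨b, J⟩, h3, h4⟩ h
        obtain rfl : a = b := congrArg Sigma.fst h
        have h5 := eq_of_heq (Sigma.mk.inj h).2
        have h6 : I = J := congrArg Subtype.val h5
        subst h6
        rfl)) W.X.C.card r (by unfold GenericPair.size at hd; exact hd)
  -- the places of bad reduction
  obtain ⟨q, y, hy⟩ := W.enum'
  choose nn P hP using fun i => int_rel (y i)
  obtain ⟨Bad, hBad⟩ : ∃ Bad : Finset (Place k F), ∀ v, v ∉ Bad → ∀ i, ∀ l < nn i,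
      ∀ α ∈ (P i l).support, v.ord ((P i l).coeff α) = 0 := by
    have h1 : (⋃ i : Fin q, ⋃ l ∈ Finset.range (nn i), ⋃ α ∈ (P i l).support,
        {v : Place k F | v.ord ((P i l).coeff α) ≠ 0}).Finite :=
      Set.finite_iUnion fun i => (Finset.range (nn i)).finite_toSet.biUnion fun l _ =>
        (P i l).support.finite_toSet.biUnion fun α _ => finite_support (k := k) _
    refine ⟨h1.toFinset, fun v hv i l hl α hα => ?_⟩
    by_contra h
    apply hv
    rw [Set.Finite.mem_toFinset]
    simp only [Set.mem_iUnion]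
    exact ⟨i, l, Finset.mem_range.2 hl, α, hα, h⟩
  obtain ⟨C2, hC2⟩ : ∃ C2 : ℕ, (C2 : ℤ) = ∑ v ∈ Bad, hgt k (unif v) :=
    ⟨(∑ v ∈ Bad, hgt k (unif v)).toNat, Int.toNat_of_nonneg
      (Finset.sum_nonneg fun _ _ => hgt_nonneg _)⟩
  -- heights of the coordinate functions
  have hmh : ∀ G : MvPolynomial (Fin (W.X.n + 1)) F, ∃ A : ℕ, ∀ (E : Type) [Field E] [Algebra k E]
      [Algebra F E] [IsScalarTower k F E] [FiniteDimensional F E] [IsFF k E]
      (v : Fin (W.X.n + 1) → E) (H : ℤ), 0 ≤ H → (∀ i, hgt k (v i) ≤ H) →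
      hgt k (MvPolynomial.aeval v G) ≤ A * (H + Module.finrank F E) := fun G => poly_hgt k G
  choose Ag hAg using hmh
  have hId : ∀ b : W.X.A, {I : Fin (W.X.n + 1) →₀ ℕ | I.degree = W.X.d b}.Finite := fun b =>
    (Finsupp.finite_of_degree_le (W.X.d b)).subset fun I hI => le_of_eq hI
  obtain ⟨Am, hAm⟩ : ∃ Am : ℕ, ∀ (b : W.X.A) (I : Fin (W.X.n + 1) →₀ ℕ), I.degree = W.X.d b →
      Ag (MvPolynomial.monomial I 1) + Ag (W.X.F b) ≤ Am := by
    refine ⟨∑ b, ∑ I ∈ (hId b).toFinset, (Ag (MvPolynomial.monomial I 1) + Ag (W.X.F b)),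
      fun b I hI => ?_⟩
    refine le_trans ?_ (Finset.single_le_sum (f := fun b => ∑ I ∈ (hId b).toFinset,
      (Ag (MvPolynomial.monomial I 1) + Ag (W.X.F b))) (fun _ _ => Nat.zero_le _)
      (Finset.mem_univ b))
    exact Finset.single_le_sum (f := fun I => Ag (MvPolynomial.monomial I 1) + Ag (W.X.F b))
      (fun _ _ => Nat.zero_le _) ((hId b).mem_toFinset.2 hI)
  refine ⟨Am * (r * (B * (C2 + 1)) + r), fun L _ _ _ _ _ _ _ _ _ f φ hφ => ?_⟩
  obtain ⟨χ, hχ⟩ : ∃ χ : ℤ, χ = max (canDeg k L + (poles k f).ncard) 0 + Module.finrank F L :=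
    ⟨_, rfl⟩
  have hχ0 : 0 ≤ χ := by
    rw [hχ]
    have := le_max_right (canDeg k L + (poles k f).ncard) 0
    positivity
  have hχL : (Module.finrank F L : ℤ) ≤ χ := by
    rw [hχ]
    have := le_max_right (canDeg k L + (poles k f).ncard) 0
    linarith
  rw [← hχ]
  have halgL : Algebra.IsAlgebraic L Ω := Algebra.IsAlgebraic.tower_top (K := F) L
  obtain ⟨hF1, hFr⟩ := deg_le hr hφ
  let E : IntermediateField L Ω := adjoin L (W.values φ)
  have hmem : ∀ b, φ b ∈ E := by
    intro b
    induction b using W.induct with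
    | hu j =>
      rw [hφ j _ rfl]
      exact E.algebraMap_mem _
    | hy y' hy' => exact subset_adjoin _ _ ⟨y', hy', rfl⟩
    | hc c =>
      rw [AlgHom.commutes, IsScalarTower.algebraMap_apply F L Ω]
      exact E.algebraMap_mem _
    | hadd a b ha hb =>
      rw [map_add]
      exact add_mem ha hb
    | hmul a b ha hb =>
      rw [map_mul]
      exact mul_mem ha hb
  let φ' : W.ring →ₐ[F] E :=
    { toFun := fun y => ⟨φ y, hmem y⟩
      map_one' := Subtype.ext (map_one φ)
      map_mul' := fun a b => Subtype.ext (map_mul φ a b)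
      map_zero' := Subtype.ext (map_zero φ)
      map_add' := fun a b => Subtype.ext (map_add φ a b)
      commutes' := fun c => Subtype.ext (φ.commutes c) }
  have hφ' : ∀ y, ((φ' y : E) : Ω) = φ y := fun y => rfl
  have hFF : IsFF k E := isFF_of_finite (F := L)
  have hst1 : IsScalarTower k F E := IsScalarTower.of_algebraMap_eq fun c => Subtype.ext (by
    change algebraMap k Ω c = algebraMap F Ω (algebraMap k F c)
    rw [IsScalarTower.algebraMap_apply k L Ω, IsScalarTower.algebraMap_apply F L Ω,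
      ← IsScalarTower.algebraMap_apply k F L])
  have hfdE : FiniteDimensional F E := FiniteDimensional.trans F L E
  have hFE : (Module.finrank F E : ℤ) ≤ r * χ := by
    rw [← Module.finrank_mul_finrank F L E]
    push_cast
    have h1 : (Module.finrank L E : ℤ) ≤ r := by exact_mod_cast hFr
    rw [mul_comm]
    exact mul_le_mul h1 hχL (by positivity) (by positivity)
  refine ⟨E, hF1, φ', hFr, hφ', ?_⟩
  -- the point
  obtain ⟨x', j0, hx0, hpt, hmon, hquot⟩ := spec_point φ
  have hxF : ∀ i, x' i ∈ E := by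
    intro i
    obtain ⟨v₁, h1, v₂, h2, h⟩ := hquot i
    rw [h]
    exact div_mem (subset_adjoin _ _ h1) (subset_adjoin _ _ h2)
  let x : Fin (W.X.n + 1) → E := fun i => ⟨x' i, hxF i⟩
  let ψ : E →ₐ[F] Ω := E.val.restrictScalars F
  have hptF : W.X.Point x := point_desc ψ hpt
  have hmonF : ∀ b I, b ∉ W.X.C → I.degree = W.X.d b → φ (W.Y b I) = ((W.X.mon x b I : E) : Ω) := by
    intro b I hb hI
    rw [hmon b I hb hI]
    exact (mon_map ψ x b I).symm
  let L₂ : IntermediateField L E := adjoin L (Set.range x)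
  have hL₂F : IsFF k L₂ := isFF_of_finite (F := L)
  let x₂ : Fin (W.X.n + 1) → L₂ := fun i => ⟨x i, subset_adjoin _ _ ⟨i, rfl⟩⟩
  have hst5 : IsScalarTower k L₂ E := IsScalarTower.of_algebraMap_eq fun _ => rfl
  have hst6 : IsScalarTower k F L₂ := IsScalarTower.of_algebraMap_eq fun c => Subtype.ext
    (IsScalarTower.algebraMap_apply k F E c)
  have hst7 : IsScalarTower F L L₂ := IsScalarTower.of_algebraMap_eq fun c => Subtype.ext
    (IsScalarTower.algebraMap_apply F L E c)
  have hgen2 : adjoin L (Set.range x₂) = ⊤ := by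
    apply IntermediateField.map_injective L₂.val
    rw [← AlgHom.fieldRange_eq_map, IntermediateField.fieldRange_val,
      IntermediateField.adjoin_map, ← Set.range_comp]
    rfl
  have hpt2 : W.X.Point x₂ := point_desc (L₂.val.restrictScalars F) hptF
  have hL₂r : Module.finrank L L₂ ≤ r := by
    refine le_trans ?_ hFr
    exact LinearMap.finrank_le_finrank_of_injective (f := L₂.val.toLinearMap)
      (fun a b h => Subtype.ext h)
  have hL₂r' : Module.finrank L₂ E ≤ r := by
    have h2 := Module.finrank_mul_finrank L L₂ E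
    have h3 := Module.finrank_pos (R := L) (M := L₂)
    have h4 : Module.finrank L E ≤ r := hFr
    nlinarith
  obtain ⟨S, hS⟩ : ∃ S : Set (Place k L), S = poles k f ∪ {P | under F P ∈ Bad} := ⟨_, rfl⟩
  have hSf : S.Finite := by
    rw [hS]
    exact (poles_finite f).union (finite_over_set (Finset.finite_toSet Bad))
  have hSc : (S.ncard : ℤ) ≤ (poles k f).ncard + C2 * Module.finrank F L := by
    rw [hS]
    have h3 := Set.ncard_union_le (poles k f) {P : Place k L | under F P ∈ Bad}
    have h4 := card_over_le (L := L) Bad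
    rw [← hC2] at h4
    have h5 : (((poles k f ∪ {P : Place k L | under F P ∈ Bad}).ncard : ℕ) : ℤ) ≤
      ((poles k f).ncard : ℤ) + ({P : Place k L | under F P ∈ Bad}.ncard : ℕ) := by
      exact_mod_cast h3
    linarith
  have hx2 : ∀ j, hgt k (x₂ j) ≤ (B * (C2 + 1) : ℕ) * χ := by
    intro j
    have h1 := hB L L₂ hL₂r x₂ j0 (Subtype.ext (Subtype.ext hx0)) hgen2 (fun g hg => by
      have h1 := hpt2.mem_V (MvPolynomial.map (algebraMap F0 (algebraicClosure F0 F)) g) (by
        rw [hV₀X]
        exact ⟨g, hg, rfl⟩)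
      rw [MvPolynomial.map_map] at h1
      exact h1) (by
      rw [← Set.ncard_coe_finset]
      exact Set.ncard_le_ncard (fun c hc => hpt2.mem_C c hc) (Set.toFinite _)) S hSf (by
      rintro P' Q a hPQ ⟨b, hb0, hlt⟩
      have hb : b ∉ W.X.C := fun h => hb0 (hpt2.mem_C b h)
      by_contra hcon
      rw [hS, Set.mem_union, not_or] at hcon
      obtain ⟨hcon1, hcon2⟩ := hcon
      have hreg : ∀ j, P'.Reg (f j) := by
        intro j
        by_contra h
        exact hcon1 ⟨j, h⟩
      obtain ⟨Q₃, a₃, hQ₃⟩ := Pool.Agent.Y172.exists_above (K := L₂) (L := E) Q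
      have hQP := Pool.Agent.W619.PQ.over_trans hQ₃ hPQ
      obtain ⟨i, hi, hi2⟩ := Pool.Agent.W603.PV.exists_pord Q (f := x₂) ⟨j0, by
        intro h
        have h3 : x₂ j0 = 1 := Subtype.ext (Subtype.ext hx0)
        rw [h3] at h
        exact one_ne_zero h⟩
      have hregL : ∀ t : L, P'.Reg t → Ge Q₃ 0 (algebraMap L E t) := fun t ht =>
        hQP.reg.2 ht
      have h3 : Ge Q₃ 0 (φ' (W.Y b (Finsupp.single i (W.X.d b)))) := by
        have h4 : W.Y b (Finsupp.single i (W.X.d b)) ∈ Set.range y := by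
          rw [hy]
          exact W.Y_mem hb (Finsupp.degree_single _ _)
        obtain ⟨i', hi'⟩ := h4
        rw [← hi']
        refine Pool.Agent.Y735.LB.ge_of_monic Q₃ (N := nn i')
          (c := fun l => φ' (MvPolynomial.aeval W.uR (P i' l))) (fun l hl => ?_) ?_
        · rw [W.hom_aeval]
          refine ge_poly (P i' l) (fun α hα => ?_) fun j => ?_
          · rw [IsScalarTower.algebraMap_apply F L E]
            refine hregL _ (Or.inr ?_)
            rw [ord_under, hBad (under F P') hcon2 i' l (Finset.mem_range.1 hl) α hα, mul_zero]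
          · have h5 : φ' (W.uR j) = algebraMap L E (f j) := Subtype.ext (hφ j _ rfl)
            rw [h5]
            exact hregL _ (hreg j)
        · have h5 := congrArg φ' (hP i')
          rw [map_zero, map_add, map_pow, map_sum] at h5
          refine Eq.trans ?_ h5
          congr 1
          refine Finset.sum_congr rfl fun l _ => ?_
          rw [map_mul, map_pow]
      have h4 : φ' (W.Y b (Finsupp.single i (W.X.d b))) =
          algebraMap L₂ E (W.X.mon x₂ b (Finsupp.single i (W.X.d b))) := by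
        have h5 : φ' (W.Y b (Finsupp.single i (W.X.d b))) =
            W.X.mon x b (Finsupp.single i (W.X.d b)) :=
          Subtype.ext (hmonF b _ hb (Finsupp.degree_single _ _))
        rw [h5]
        exact (mon_map (L₂.val.restrictScalars F) x₂ b (Finsupp.single i (W.X.d b))).symm
      rw [h4] at h3
      have h5 := hpt2.notMem b hb
      have h6 : W.X.mon x₂ b (Finsupp.single i (W.X.d b)) ≠ 0 := by
        unfold GenericPair.mon
        rw [prod_single]
        exact div_ne_zero (pow_ne_zero _ hi) h5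
      rcases h3 with h3 | h3
      · exact ((_root_.map_ne_zero _).2 h6) h3
      · rw [hQ₃.2] at h3
        have h7 : 0 ≤ Q.ord (W.X.mon x₂ b (Finsupp.single i (W.X.d b))) := by
          have h8 : (0 : ℤ) < a₃ := by exact_mod_cast hQ₃.1
          by_contra h9
          push Not at h9
          nlinarith
        unfold GenericPair.mon at h7
        rw [prod_single, Q.ord_div (pow_ne_zero _ hi) h5, Q.ord_pow, hi2] at h7
        omega) j
    refine h1.trans ?_
    push_cast
    rw [mul_assoc]
    refine mul_le_mul_of_nonneg_left ?_ (by positivity)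
    have h2 : max (canDeg k L + (S.ncard : ℤ)) 0 ≤ max (canDeg k L + (poles k f).ncard) 0 +
        C2 * Module.finrank F L := by
      refine max_le ?_ ?_
      · have := le_max_left (canDeg k L + (poles k f).ncard) 0
        linarith
      · have := le_max_right (canDeg k L + (poles k f).ncard) 0
        positivity
    have h3 : C2 * (Module.finrank F L : ℤ) ≤ C2 * χ :=
      mul_le_mul_of_nonneg_left hχL (by positivity)
    have h4 : max (canDeg k L + (poles k f).ncard) 0 + (Module.finrank F L : ℤ) = χ := hχ.symm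
    linarith
  have hx1 : ∀ j, hgt k (x j) ≤ (r * (B * (C2 + 1)) : ℕ) * χ := by
    intro j
    have h1 : x j = algebraMap L₂ E (x₂ j) := rfl
    rw [h1, hgt_algebraMap]
    have h2 : (Module.finrank L₂ E : ℤ) ≤ r := by exact_mod_cast hL₂r'
    refine (mul_le_mul h2 (hx2 j) (hgt_nonneg _) (by positivity)).trans (le_of_eq ?_)
    push_cast
    ring
  rintro y' ⟨b, I, hb, hI, hy'⟩
  have h1 : φ' y' = W.X.mon x b I := by
    apply Subtype.ext
    change φ y' = _
    rw [← hmonF b I hb hI]
    congr 1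
    exact Subtype.ext (by rw [hy', W.Y_val hb hI])
  rw [h1]
  have h2 : MvPolynomial.aeval x (MvPolynomial.monomial I (1 : F)) = ∏ i, x i ^ I i := by
    rw [MvPolynomial.aeval_monomial, map_one, one_mul, Finsupp.prod_fintype]
    intro i
    exact pow_zero _
  have h3 := hAg (MvPolynomial.monomial I 1) E x _ (by positivity) hx1
  have h4 := hAg (W.X.F b) E x _ (by positivity) hx1
  unfold GenericPair.mon
  rw [div_eq_mul_inv]
  refine (Pool.Agent.TH145.MW.hgt_mul_le _ _).trans ?_
  rw [hgt_inv, ← h2]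
  have h5 : ((r * (B * (C2 + 1)) : ℕ) : ℤ) * χ + Module.finrank F E ≤
      ((r * (B * (C2 + 1)) + r : ℕ) : ℤ) * χ := by
    push_cast
    linarith
  have h6 : ((Ag (MvPolynomial.monomial I 1) : ℕ) : ℤ) + Ag (W.X.F b) ≤ Am := by
    exact_mod_cast hAm b I hI
  have h7 : (0 : ℤ) ≤ ((r * (B * (C2 + 1)) + r : ℕ) : ℤ) * χ := by positivity
  calc _ ≤ (Ag (MvPolynomial.monomial I 1) : ℤ) * (((r * (B * (C2 + 1)) + r : ℕ) : ℤ) * χ) +
        (Ag (W.X.F b) : ℤ) * (((r * (B * (C2 + 1)) + r : ℕ) : ℤ) * χ) :=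
        add_le_add (h3.trans (mul_le_mul_of_nonneg_left h5 (by positivity)))
          (h4.trans (mul_le_mul_of_nonneg_left h5 (by positivity)))
    _ = ((Ag (MvPolynomial.monomial I 1) : ℤ) + Ag (W.X.F b)) *
        (((r * (B * (C2 + 1)) + r : ℕ) : ℤ) * χ) := by ring
    _ ≤ Am * (((r * (B * (C2 + 1)) + r : ℕ) : ℤ) * χ) := mul_le_mul_of_nonneg_right h6 h7
    _ = _ := by push_cast; ring

end values

end Pool.Agent.N95.HN
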