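import Pool.Agent.N95.HN.Nrm
import Pool.Agent.Y735.R3.BaseCh

/-!
Closed subvarieties, over the algebraic closure, on which a correspondence is generically finite, are
of log general type.
-/

set_option autoImplicit false
set_option linter.unusedSectionVars false
set_option linter.overlappingInstances false

open FF IntermediateField

namespace Pool.Agent.N95.HN

open Pool.Agent.N111.GJ
open Pool.Agent.TH145.MG (DimLE)
open Pool.Agent.W602.GT (LogGeneralType)

section ext

variable {F0 F Ω : Type} [Field F0] [Field F] [Field Ω] [Algebra F0 F] [Algebra F Ω]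
  [Algebra F0 Ω] [IsScalarTower F0 F Ω]

/-- The generic pair over a larger field. -/
noncomputable def extPair (X : GenericPair F0 F) (Ω : Type) [Field Ω] [Algebra F Ω] [Algebra F0 Ω]
    [IsScalarTower F0 F Ω] (V₀ : Set (MvPolynomial (Fin (X.n + 1)) F0)) (hV₀ : DimLE F0 V₀ X.m)
    (hX : X.V = MvPolynomial.map (algebraMap F0 (algebraicClosure F0 F)) '' V₀) :
    GenericPair F0 Ω where
  n := X.n
  m := X.m
  V := MvPolynomial.map (algebraMap F0 (algebraicClosure F0 Ω)) '' V₀
  V_form := by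
    rintro _ ⟨f, hf, rfl⟩
    obtain ⟨e, he⟩ := X.V_form (MvPolynomial.map (algebraMap F0 (algebraicClosure F0 F)) f)
      (by rw [hX]; exact ⟨f, hf, rfl⟩)
    refine ⟨e, MvPolynomial.IsHomogeneous.map (fun d hd => he ?_) _⟩
    rw [MvPolynomial.coeff_map]
    exact (_root_.map_ne_zero _).2 hd
  V_dim := Pool.Agent.Y735.R3.dimLE_alg V₀ hV₀
  A := X.A
  C := X.C
  d := X.d
  F := fun a => MvPolynomial.map (algebraMap F Ω) (X.F a)
  F_form := fun a => (X.F_form a).map _
  I₀ := X.I₀
  coeff_ne := fun a => by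
    rw [MvPolynomial.coeff_map]
    exact (_root_.map_ne_zero _).2 (X.coeff_ne a)
  generic := by
    have h1 := X.generic.map' (f := IsScalarTower.toAlgHom F0 F Ω) (algebraMap F Ω).injective
    have h2 : (fun p : (a : X.A) × {I : Fin (X.n + 1) →₀ ℕ // I.degree = X.d a ∧ I ≠ X.I₀ a} =>
        (MvPolynomial.map (algebraMap F Ω) (X.F p.1)).coeff p.2.1 /
          (MvPolynomial.map (algebraMap F Ω) (X.F p.1)).coeff (X.I₀ p.1)) =
        (IsScalarTower.toAlgHom F0 F Ω) ∘ fun p : (a : X.A) × {I : Fin (X.n + 1) →₀ ℕ //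
          I.degree = X.d a ∧ I ≠ X.I₀ a} => (X.F p.1).coeff p.2.1 / (X.F p.1).coeff (X.I₀ p.1) := by
      funext p
      rw [MvPolynomial.coeff_map, MvPolynomial.coeff_map, ← map_div₀]
      rfl
    rw [h2]
    exact h1
  affine := X.affine

theorem extPair_aeval {X : GenericPair F0 F} {V₀ : Set (MvPolynomial (Fin (X.n + 1)) F0)}
    {hV₀ : DimLE F0 V₀ X.m}
    {hX : X.V = MvPolynomial.map (algebraMap F0 (algebraicClosure F0 F)) '' V₀} {E : Type} [Field E]
    [Algebra F E] [Algebra Ω E] [IsScalarTower F Ω E] (x : Fin (X.n + 1) → E) (a : X.A) :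
    MvPolynomial.aeval x ((extPair X Ω V₀ hV₀ hX).F a) = MvPolynomial.aeval x (X.F a) :=
  MvPolynomial.aeval_map_algebraMap Ω x (X.F a)

theorem extPair_point {X : GenericPair F0 F} {V₀ : Set (MvPolynomial (Fin (X.n + 1)) F0)}
    {hV₀ : DimLE F0 V₀ X.m}
    {hX : X.V = MvPolynomial.map (algebraMap F0 (algebraicClosure F0 F)) '' V₀} {E : Type} [Field E]
    [Algebra F E] [Algebra Ω E] [IsScalarTower F Ω E] {x : Fin (X.n + 1) → E} (h : X.Point x) :
    (extPair X Ω V₀ hV₀ hX).Point x := by
  refine ⟨h.ne, ?_, fun c hc => ?_, fun b hb => ?_⟩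
  · rintro _ ⟨f, hf, rfl⟩
    have h1 := h.mem_V (MvPolynomial.map (algebraMap F0 (algebraicClosure F0 F)) f)
      (by rw [hX]; exact ⟨f, hf, rfl⟩)
    rw [MvPolynomial.map_map] at h1
    have h2 : MvPolynomial.aeval x (MvPolynomial.map (algebraMap F Ω)
        (MvPolynomial.map (algebraMap F0 F) f)) =
        MvPolynomial.aeval x (MvPolynomial.map (algebraMap F0 F) f) :=
      MvPolynomial.aeval_map_algebraMap Ω x _
    rw [MvPolynomial.map_map, ← IsScalarTower.algebraMap_eq] at h2
    have h3 : MvPolynomial.aeval x (MvPolynomial.map (algebraMap (algebraicClosure F0 Ω) Ω)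
        (MvPolynomial.map (algebraMap F0 (algebraicClosure F0 Ω)) f)) = 0 := by
      rw [MvPolynomial.map_map, ← IsScalarTower.algebraMap_eq]
      refine h2.trans (Eq.trans ?_ h1)
      rw [← IsScalarTower.algebraMap_eq]
    exact h3
  · exact (extPair_aeval x c).trans (h.mem_C c hc)
  · exact fun h0 => h.notMem b hb ((extPair_aeval x b).symm.trans h0)

theorem extPair_mon {X : GenericPair F0 F} {V₀ : Set (MvPolynomial (Fin (X.n + 1)) F0)}
    {hV₀ : DimLE F0 V₀ X.m}
    {hX : X.V = MvPolynomial.map (algebraMap F0 (algebraicClosure F0 F)) '' V₀} {E : Type} [Field E]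
    [Algebra F E] [Algebra Ω E] [IsScalarTower F Ω E] (x : Fin (X.n + 1) → E) (b : X.A)
    (I : Fin (X.n + 1) →₀ ℕ) : (extPair X Ω V₀ hV₀ hX).mon x b I = X.mon x b I := by
  have h1 := extPair_aeval (Ω := Ω) (hV₀ := hV₀) (hX := hX) x b
  exact congrArg (fun t => (∏ i, x i ^ I i) / t) h1

end ext

section int

variable {F0 F : Type} [Field F0] [Field F] [Algebra F0 F] {ℒ : Type} [Field ℒ]
  [Algebra F ℒ] {N : ℕ} {u : Fin N → ℒ}

theorem int_over {W : Corr F0 F u} {E Ω' : Type} [Field E] [Field Ω'] [Algebra F E] [Algebra E Ω']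
    [Algebra F Ω'] [IsScalarTower F E Ω'] {z : Fin N → E} {φ : W.ring →ₐ[F] Ω'}
    (hφ : W.Over φ fun j => algebraMap E Ω' (z j)) {b : W.X.A} {I : Fin (W.X.n + 1) →₀ ℕ}
    (hb : b ∉ W.X.C) (hI : I.degree = W.X.d b) :
    ∃ p : Polynomial E, p.Monic ∧ (∀ i, p.coeff i ∈ Algebra.adjoin F (Set.range z)) ∧
      Polynomial.aeval (φ (W.Y b I)) p = 0 :=
  spec_int (B := W.ring) (φ := φ) (z := z) W.base_mem (fun j => hφ j _ rfl) (θ := W.Y b I)
    (W.mons_int (W.Y_mem hb hI))

end int

theorem alg_larger {F Ω A : Type} [Field F] [Field Ω] [Field A] [Algebra F Ω] [Algebra Ω A]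
    [Algebra F A] [IsScalarTower F Ω A] {T : Set A} {a : A} (h : IsAlgebraic (adjoin F T) a) :
    IsAlgebraic (adjoin Ω T) a := by
  have h1 : adjoin F T ≤ (adjoin Ω T).restrictScalars F :=
    adjoin_le_iff.2 fun s hs => subset_adjoin Ω T hs
  obtain ⟨p, hp, hp0⟩ := h
  let f : adjoin F T →+* adjoin Ω T :=
    { toFun := fun y => ⟨y, h1 y.2⟩
      map_one' := rfl
      map_mul' := fun _ _ => rfl
      map_zero' := rfl
      map_add' := fun _ _ => rfl }
  refine ⟨p.map f, (Polynomial.map_ne_zero_iff f.injective).2 hp, ?_⟩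
  rw [Polynomial.aeval_def, Polynomial.eval₂_map]
  exact hp0

section main

variable {F0 F : Type} [Field F0] [Field F] [Algebra F0 F] [CharZero F] {ℒ : Type} [Field ℒ]
  [Algebra F ℒ] {N : ℕ} {u : Fin N → ℒ}

/-- **Closed subvarieties, over the algebraic closure, on which a correspondence is generically
finite, are of log general type.** -/
theorem log_generalF {W : Corr F0 F u} (hV : DefinedOver W.X) {Ω : Type} [Field Ω] [IsAlgClosed Ω]
    [Algebra F Ω] [Algebra F0 Ω] [IsScalarTower F0 F Ω] {r : ℕ}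
    (hr : ∀ s : Fin N → Ω, {φ : W.ring →ₐ[F] Ω | W.Over φ s}.encard ≤ r) {E : Type} [Field E]
    [Algebra Ω E] [Algebra F E] [IsScalarTower F Ω E] {z : Fin N → E} {w : ℕ}
    (hgen : adjoin Ω (Set.range z) = ⊤) (hdim : Algebra.trdeg Ω E = w) (hw : 0 < w)
    {φ : W.ring →ₐ[F] AlgebraicClosure E} (hφ : W.Over φ fun j => algebraMap E _ (z j))
    (halg : ∀ j, IsAlgebraic (adjoin Ω (W.values φ)) (algebraMap E (AlgebraicClosure E) (z j)))
    (hd : 2 * W.X.m + 2 * r ≤ W.X.size + w) :
    LogGeneralType Ω E w fun P => ∃ j, ¬ P.Reg (z j) := by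
  classical
  have hcΩ : CharZero Ω := charZero_of_injective_algebraMap (algebraMap F Ω).injective
  have hcE : CharZero E := charZero_of_injective_algebraMap (algebraMap Ω E).injective
  obtain ⟨V₀, hV₀, hX⟩ := hV
  have hfin : (W.values φ).Finite := by
    refine (W.mons_fin.image φ).subset ?_
    rintro _ ⟨y, hy, rfl⟩
    exact ⟨y, hy, rfl⟩
  have hfs : Finite (W.values φ) := hfin
  have hfd : FiniteDimensional E (adjoin E (W.values φ)) :=
    IntermediateField.finiteDimensional_adjoin fun x _ => Algebra.IsIntegral.isIntegral x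
  let E' := adjoin E (W.values φ)
  have hst1 : IsScalarTower F Ω E' := IsScalarTower.of_algebraMap_eq fun c => Subtype.ext
    (IsScalarTower.algebraMap_apply F Ω (AlgebraicClosure E) c)
  have hmem : ∀ b, φ b ∈ E' := by
    intro b
    induction b using W.induct with
    | hu j =>
      rw [hφ j _ rfl]
      exact E'.algebraMap_mem _
    | hy y' hy' => exact subset_adjoin _ _ ⟨y', hy', rfl⟩
    | hc c =>
      rw [AlgHom.commutes, IsScalarTower.algebraMap_apply F E (AlgebraicClosure E)]
      exact E'.algebraMap_mem _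
    | hadd a b ha hb =>
      rw [map_add]
      exact add_mem ha hb
    | hmul a b ha hb =>
      rw [map_mul]
      exact mul_mem ha hb
  let φ' : W.ring →ₐ[F] E' :=
    { toFun := fun y => ⟨φ y, hmem y⟩
      map_one' := Subtype.ext (map_one φ)
      map_mul' := fun a b => Subtype.ext (map_mul φ a b)
      map_zero' := Subtype.ext (map_zero φ)
      map_add' := fun a b => Subtype.ext (map_add φ a b)
      commutes' := fun c => Subtype.ext (φ.commutes c) }
  obtain ⟨x', j0, hx0, hpt, hmon, hquot⟩ := spec_point φ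
  have hxE : ∀ i, x' i ∈ E' := by
    intro i
    obtain ⟨v₁, h1, v₂, h2, h⟩ := hquot i
    rw [h]
    exact div_mem (subset_adjoin _ _ h1) (subset_adjoin _ _ h2)
  let x : Fin (W.X.n + 1) → E' := fun i => ⟨x' i, hxE i⟩
  let ψ : E' →ₐ[F] AlgebraicClosure E := E'.val.restrictScalars F
  have hptF : W.X.Point x := point_desc ψ hpt
  have hmonF : ∀ b I, b ∉ W.X.C → I.degree = W.X.d b →
      φ (W.Y b I) = ((W.X.mon x b I : E') : AlgebraicClosure E) := by
    intro b I hb hI
    rw [hmon b I hb hI]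
    exact (mon_map ψ x b I).symm
  have hadj : ∀ t ∈ Algebra.adjoin F (Set.range z), t ∈ Algebra.adjoin Ω (Set.range z) := by
    intro t ht
    have h1 : Algebra.adjoin F (Set.range z) ≤
        (Algebra.adjoin Ω (Set.range z)).restrictScalars F :=
      Algebra.adjoin_le fun s hs => Algebra.subset_adjoin hs
    exact h1 ht
  have hint : ∀ (b : W.X.A) (I : Fin (W.X.n + 1) →₀ ℕ), b ∉ W.X.C → I.degree = W.X.d b →
      IsIntegral (Algebra.adjoin Ω (Set.range z)) (W.X.mon x b I) := by
    intro b I hb hI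
    obtain ⟨p, hp, hpz, hp0⟩ := int_over hφ hb hI
    obtain ⟨c, hc⟩ : ∃ c : ℕ → Algebra.adjoin Ω (Set.range z), ∀ i, (c i : E) = p.coeff i :=
      ⟨fun i => ⟨p.coeff i, hadj _ (hpz i)⟩, fun _ => rfl⟩
    refine Pool.Agent.Y735.LB.isIntegral_of_monic (N := p.natDegree) c ?_
    apply (algebraMap E' (AlgebraicClosure E)).injective
    rw [map_zero, ← hp0, Polynomial.aeval_eq_sum_range, Finset.sum_range_succ,
      hp.coeff_natDegree, one_smul, add_comm, map_add, map_pow, map_sum, hmonF b I hb hI]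
    congr 1
    refine Finset.sum_congr rfl fun i _ => ?_
    rw [map_mul, map_pow, Algebra.smul_def, ← hc i]
    rfl
  let W' : Corr F0 Ω z :=
    { X := extPair W.X Ω V₀ hV₀ hX
      L' := E'
      x := x
      pt := extPair_point hptF
      integral := fun b I hb hI => by
        have h1 := hint b I hb hI
        rw [← extPair_mon (Ω := Ω) (hV₀ := hV₀) (hX := hX) x b I] at h1
        exact h1 }
  have hW'X : W'.X = extPair W.X Ω V₀ hV₀ hX := rfl
  -- the homomorphism of the rings of functions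
  have hmemR : ∀ b, φ' b ∈ W'.ring := by
    intro b
    induction b using W.induct with
    | hu j =>
      have h1 : φ' ⟨_, W.base_mem j⟩ = algebraMap E E' (z j) := Subtype.ext (hφ j _ rfl)
      rw [h1]
      exact W'.base_mem j
    | hy y' hy' =>
      obtain ⟨b, I, hb, hI, hy⟩ := hy'
      have h1 : φ' y' = (extPair W.X Ω V₀ hV₀ hX).mon x b I := by
        refine Eq.trans ?_ (extPair_mon (Ω := Ω) (hV₀ := hV₀) (hX := hX) x b I).symm
        apply Subtype.ext
        change φ y' = _
        rw [← hmonF b I hb hI]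
        congr 1
        exact Subtype.ext (by rw [hy, W.Y_val hb hI])
      rw [h1]
      exact Algebra.subset_adjoin (Or.inr ⟨b, I, hb, hI, rfl⟩)
    | hc c =>
      rw [AlgHom.commutes, IsScalarTower.algebraMap_apply F Ω E']
      exact W'.ring.algebraMap_mem _
    | hadd a b ha hb =>
      rw [map_add]
      exact add_mem ha hb
    | hmul a b ha hb =>
      rw [map_mul]
      exact mul_mem ha hb
  let ρ : W.ring →ₐ[F] W'.ring :=
    { toFun := fun y => ⟨φ' y, hmemR y⟩
      map_one' := Subtype.ext (map_one φ')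
      map_mul' := fun a b => Subtype.ext (map_mul φ' a b)
      map_zero' := Subtype.ext (map_zero φ')
      map_add' := fun a b => Subtype.ext (map_add φ' a b)
      commutes' := fun c => Subtype.ext (φ'.commutes c) }
  have hρu : ∀ j (y : W.ring), (y : W.L') = algebraMap ℒ W.L' (u j) →
      ρ y = ⟨_, W'.base_mem j⟩ := by
    intro j y hy
    apply Subtype.ext
    apply Subtype.ext
    exact hφ j y hy
  have hρy : ∀ y : W'.ring, (y : W'.L') ∈ W'.mons → ∃ y₀ : W.ring, (y₀ : W.L') ∈ W.mons ∧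
      ρ y₀ = y := by
    rintro y ⟨b, I, hb, hI, hy⟩
    refine ⟨W.Y b I, W.Y_mem hb hI, ?_⟩
    apply Subtype.ext
    refine Eq.trans ?_ hy.symm
    refine Eq.trans ?_ (extPair_mon (Ω := Ω) (hV₀ := hV₀) (hX := hX) x b I).symm
    apply Subtype.ext
    exact hmonF b I hb hI
  have hr' : W'.FibresLE r := by
    intro s
    refine le_trans ?_ (hr s)
    refine Set.encard_le_encard_of_injOn
      (f := fun χ : W'.ring →ₐ[Ω] Ω => (χ.restrictScalars F).comp ρ) (fun χ hχ j y hy => ?_)
      fun χ hχ χ' hχ' h => ?_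
    · change χ (ρ y) = s j
      rw [hρu j y hy]
      exact hχ j _ rfl
    · refine W'.hom_ext (fun j => ?_) fun y hy => ?_
      · rw [hχ j _ rfl, hχ' j _ rfl]
      · obtain ⟨y₀, -, rfl⟩ := hρy y hy
        exact DFunLike.congr_fun h y₀
  have hgf : W'.GenericallyFiniteOn z := by
    refine ⟨(E'.val.restrictScalars Ω).comp W'.ring.val, fun j y hy => ?_, fun j => ?_⟩
    · change E'.val (y : E') = _
      have h1 : (y : E') = algebraMap E E' (z j) := hy
      rw [h1]
      rfl
    · have h1 : W.values φ ⊆ W'.values ((E'.val.restrictScalars Ω).comp W'.ring.val) := by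
        rintro _ ⟨y, ⟨b, I, hb, hI, hy⟩, rfl⟩
        refine ⟨ρ y, ⟨b, I, hb, hI, ?_⟩, rfl⟩
        refine Eq.trans ?_ (extPair_mon (Ω := Ω) (hV₀ := hV₀) (hX := hX) x b I).symm
        apply Subtype.ext
        change φ y = _
        rw [← hmonF b I hb hI]
        congr 1
        exact Subtype.ext (by rw [hy, W.Y_val hb hI])
      have h2 := Pool.Agent.N111.FT.mem_aclo.2 (halg j)
      exact Pool.Agent.N111.FT.mem_aclo.1 (Pool.Agent.N111.FT.aclo_mono h1 h2)
  exact log_general (W := W') hr' (isSub_self hgen hdim) hw hgf hd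

end main

end Pool.Agent.N95.HN
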