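import Pool.Agent.N95.HN.Cor

/-!
Vojta's height inequality for the varieties with finite correspondences to generic pairs over
function fields.
-/

set_option autoImplicit false
set_option linter.unusedSectionVars false
set_option linter.overlappingInstances false

open FF IntermediateField

namespace Pool.Agent.N95.HN

open Pool.Agent.N111.GJ (Corr GenericPair IsSub ess_of_adjoin)
open Pool.Agent.W603.PV Pool.Agent.W603.LV
open Pool.Agent.N95.HK (hom_y exists_rel exists_nonzero exists_over_ker pht_cons_le)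

/-- The point `f` lies on a closed subvariety of positive dimension of the affine variety with
coordinates `u` on which no correspondence with a generic pair in the range is generically finite. -/
def Exc (F0 F : Type) {ℒ L : Type} [Field F0] [Field F] [Algebra F0 F] [Field ℒ] [Algebra F ℒ]
    [Field L] [Algebra F L] {N : ℕ} (u : Fin N → ℒ) (f : Fin N → L) : Prop :=
  ∃ (E₀ : Type) (_ : Field E₀) (_ : Algebra F E₀) (w : ℕ) (z : Fin N → E₀), 0 < w ∧
    IsSub F u z w ∧
    (∀ P : MvPolynomial (Fin N) F, MvPolynomial.aeval z P = 0 → MvPolynomial.aeval f P = 0) ∧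
    ∀ (W : Corr F0 F u) (r : ℕ), DefinedOver W.X → (∀ s : Fin N → AlgebraicClosure F,
      {φ : W.ring →ₐ[F] AlgebraicClosure F | W.Over φ s}.encard ≤ r) →
      2 * W.X.m + 2 * r ≤ W.X.size → ¬ W.GenericallyFiniteOn z

section

variable {k0 k F0 F : Type} [Field k0] [Field k] [Field F0] [Field F] [IsAlgClosed k]
    [CharZero k] [Algebra k0 k] [Algebra k F] [Algebra k0 F] [IsScalarTower k0 k F]
    [Algebra k0 F0] [Algebra F0 F] [IsScalarTower k0 F0 F] [IsFF k F]
    {ℒ : Type} [Field ℒ] [Algebra F ℒ] {N : ℕ} {u : Fin N → ℒ}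

/-- heights of the roots of a polynomial -/
theorem root_hgtF (k : Type) {F : Type} [Field k] [Field F] [IsAlgClosed k] [CharZero k]
    [Algebra k F] [IsFF k F] {p : Polynomial F} (hp : p ≠ 0) :
    ∃ A : ℕ, ∀ (E : Type) [Field E] [Algebra k E] [Algebra F E] [IsScalarTower k F E]
      [FiniteDimensional F E] [IsFF k E] (t : E), Polynomial.aeval t p = 0 →
      hgt k t ≤ A * Module.finrank F E := by
  obtain ⟨A, hA⟩ := rel_hgtF k (F := F) (q := 0) p.natDegree
    (fun i => MvPolynomial.C (p.coeff i))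
  refine ⟨A, fun E _ _ _ _ _ _ t ht => ?_⟩
  have h1 := hA E (fun i => i.elim0) t 0 le_rfl (fun i => i.elim0) (by
    rw [MvPolynomial.aeval_C]
    exact (_root_.map_ne_zero _).2 fun h => hp (Polynomial.leadingCoeff_eq_zero.1 h)) (by
    rw [← ht, Polynomial.aeval_eq_sum_range]
    refine Finset.sum_congr rfl fun i _ => ?_
    rw [MvPolynomial.aeval_C, Algebra.smul_def])
  rwa [zero_add] at h1

variable (k) in
/-- heights off a closed subset -/
theorem cmp_oneF {W : Corr F0 F u} {Ω₀ : Type} [Field Ω₀] [Algebra F Ω₀] (φ₀ : W.ring →ₐ[F] Ω₀)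
    (h : ∀ j, IsAlgebraic (adjoin F (W.values φ₀)) (φ₀ (W.uR j))) :
    ∃ c : W.ring, φ₀ c ≠ 0 ∧ ∃ A : ℕ, ∀ (E : Type) [Field E] [Algebra k E] [Algebra F E]
      [IsScalarTower k F E] [FiniteDimensional F E] [IsFF k E]
      (φ : W.ring →ₐ[F] E) (H : ℤ), 0 ≤ H →
      (∀ y : W.ring, (y : W.L') ∈ W.mons → hgt k (φ y) ≤ H) → (∀ b, φ₀ b = 0 → φ b = 0) →
      φ c ≠ 0 → ∀ j, hgt k (φ (W.uR j)) ≤ A * (H + Module.finrank F E) := by
  classical
  obtain ⟨q, y, hy⟩ := W.enum'
  choose d P hP0 hP using fun j => exists_rel φ₀ hy (h j)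
  choose A hA using fun j => rel_hgtF k (F := F) (d j) (P j)
  refine ⟨∏ j, MvPolynomial.aeval y (P j (d j)), ?_, ∑ j, A j,
    fun E _ _ _ _ _ _ φ H hH hv hker hc j => ?_⟩
  · rw [map_prod]
    exact Finset.prod_ne_zero_iff.2 fun j _ => hP0 j
  rw [map_prod] at hc
  have hc' := fun j => Finset.prod_ne_zero_iff.1 hc j (Finset.mem_univ j)
  have h1 := hA j E (fun i => φ (y i)) (φ (W.uR j)) H hH (fun i => hv (y i) (by
    have h1 : y i ∈ Set.range y := ⟨i, rfl⟩
    rw [hy] at h1
    exact h1)) (by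
    rw [← hom_y]
    exact hc' j) (by
    have h2 := hker _ (hP j)
    rw [map_sum] at h2
    refine Eq.trans (Finset.sum_congr rfl fun i _ => ?_) h2
    rw [map_mul, map_pow, hom_y])
  refine h1.trans (mul_le_mul_of_nonneg_right ?_ (by positivity))
  exact_mod_cast Finset.single_le_sum (f := A) (fun _ _ => Nat.zero_le _) (Finset.mem_univ j)

/-- **Vojta's height inequality for the subvarieties on which a correspondence is generically
finite.** -/
theorem gf_boundF (hfg : ∃ S : Finset F0, IntermediateField.adjoin k0 (S : Set F0) = ⊤)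
    {W : Corr F0 F u} (hV : DefinedOver W.X) {r : ℕ}
    (hr : ∀ s : Fin N → AlgebraicClosure F,
      {φ : W.ring →ₐ[F] AlgebraicClosure F | W.Over φ s}.encard ≤ r)
    {E₀ : Type} [Field E₀] [Algebra F E₀] {z : Fin N → E₀} (hW : W.GenericallyFiniteOn z)
    (hd : 2 * W.X.m + 2 * r ≤ W.X.size) :
    ∃ (G : MvPolynomial (Fin N) F) (A : ℕ), MvPolynomial.aeval z G ≠ 0 ∧
      ∀ (L : Type) [Field L] [Algebra k L] [Algebra F L] [IsScalarTower k F L]
        [FiniteDimensional F L] [IsFF k L] (f : Fin N → L),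
        (∀ P : MvPolynomial (Fin N) F, MvPolynomial.aeval z P = 0 → MvPolynomial.aeval f P = 0) →
        MvPolynomial.aeval f G ≠ 0 →
        pht k (Fin.cons 1 f : Fin (N + 1) → L) ≤
          A * (max (canDeg k L + (poles k f).ncard) 0 + Module.finrank F L) := by
  classical
  obtain ⟨φ₀, hφ₀, halg⟩ := hW
  have hval : ∀ P : MvPolynomial (Fin N) F, φ₀ (MvPolynomial.aeval W.uR P) =
      algebraMap E₀ (AlgebraicClosure E₀) (MvPolynomial.aeval z P) := by
    intro P
    rw [W.hom_aeval]
    have h1 : (fun j => φ₀ (W.uR j)) = fun j => algebraMap E₀ (AlgebraicClosure E₀) (z j) := by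
      funext j
      exact hφ₀ j _ rfl
    rw [h1]
    exact MvPolynomial.aeval_algebraMap_apply _ z P
  obtain ⟨c, hc, A₁, hA₁⟩ := cmp_oneF k φ₀ fun j => by
    have h1 : φ₀ (W.uR j) = algebraMap E₀ (AlgebraicClosure E₀) (z j) := hφ₀ j _ rfl
    rw [h1]
    exact halg j
  obtain ⟨G, hG, hG'⟩ := exists_nonzero hc
  obtain ⟨A₂, hA₂⟩ := values_boundF (k := k) hfg W hV (Ω := AlgebraicClosure F) hr hd
  refine ⟨G, N * (A₁ * (A₂ + r)), fun h0 => hG (by rw [hval, h0, map_zero]),
    fun L _ _ _ _ _ _ f hf hfG => ?_⟩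
  obtain ⟨χ, hχ⟩ : ∃ χ : ℤ, χ = max (canDeg k L + (poles k f).ncard) 0 + Module.finrank F L :=
    ⟨_, rfl⟩
  have hχ0 : 0 ≤ χ := by
    rw [hχ]
    have := le_max_right (canDeg k L + (poles k f).ncard) 0
    positivity
  have hχL : (Module.finrank F L : ℤ) ≤ χ := by
    rw [hχ]
    have := le_max_right (canDeg k L + (poles k f).ncard) 0
    linarith
  rw [← hχ]
  -- the embedding
  let ι : L →ₐ[F] AlgebraicClosure F := IsAlgClosed.lift
  let _ : Algebra L (AlgebraicClosure F) := ι.toRingHom.toAlgebra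
  have hst1 : IsScalarTower F L (AlgebraicClosure F) :=
    IsScalarTower.of_algebraMap_eq fun c => (ι.commutes c).symm
  have hst2 : IsScalarTower k L (AlgebraicClosure F) := IsScalarTower.of_algebraMap_eq fun c => by
    rw [IsScalarTower.algebraMap_apply k F (AlgebraicClosure F),
      IsScalarTower.algebraMap_apply k F L, ← IsScalarTower.algebraMap_apply F L]
  have hev : ∀ P : MvPolynomial (Fin N) F,
      MvPolynomial.aeval (fun j => algebraMap L (AlgebraicClosure F) (f j)) P =
      algebraMap L (AlgebraicClosure F) (MvPolynomial.aeval f P) := fun P =>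
    MvPolynomial.aeval_algebraMap_apply _ f P
  obtain ⟨φ, hφ, hker⟩ := exists_over_ker φ₀
    (f := fun j => algebraMap L (AlgebraicClosure F) (f j)) (fun P hP => by
      rw [hval, map_eq_zero_iff _ (algebraMap E₀ (AlgebraicClosure E₀)).injective] at hP
      rw [hev, hf P hP, map_zero])
  obtain ⟨E, hfd, φ', hE, hcoe, hH⟩ := hA₂ L f φ hφ
  have hFF : IsFF k E := isFF_of_finite (F := L)
  have hst3 : IsScalarTower k F E := IsScalarTower.of_algebraMap_eq fun c => Subtype.ext (by
    change algebraMap k (AlgebraicClosure F) c = algebraMap F (AlgebraicClosure F)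
      (algebraMap k F c)
    rw [← IsScalarTower.algebraMap_apply k F (AlgebraicClosure F)])
  have hfdE : FiniteDimensional F E := FiniteDimensional.trans F L E
  have hFE : (Module.finrank F E : ℤ) ≤ r * χ := by
    rw [← Module.finrank_mul_finrank F L E]
    push_cast
    have h1 : (Module.finrank L E : ℤ) ≤ r := by exact_mod_cast hE
    rw [mul_comm]
    exact mul_le_mul h1 hχL (by positivity) (by positivity)
  have h1 := hA₁ E φ' (A₂ * χ) (by positivity) (fun y hy => by
    rw [hχ]
    exact hH y hy) (fun b hb => Subtype.ext (by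
      rw [hcoe, hker b hb]
      rfl)) (by
      intro h0
      refine hG' (AlgebraicClosure F) φ hker ?_ ?_
      · rw [W.hom_aeval]
        have h1 : (fun j => φ (W.uR j)) = fun j => algebraMap L (AlgebraicClosure F) (f j) := by
          funext j
          exact hφ j _ rfl
        rw [h1, hev]
        exact (_root_.map_ne_zero _).2 hfG
      · rw [← hcoe, h0]
        rfl)
  have h2 : ∀ j, hgt k (f j) ≤ A₁ * ((A₂ + r) * χ) := by
    intro j
    have h3 : φ' (W.uR j) = algebraMap L E (f j) := by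
      apply Subtype.ext
      rw [hcoe]
      exact hφ j _ rfl
    have h4 := h1 j
    rw [h3, hgt_algebraMap] at h4
    have h5 : (1 : ℤ) ≤ Module.finrank L E := by
      exact_mod_cast (Module.finrank_pos : 0 < Module.finrank L E)
    have h6 : 0 ≤ hgt k (f j) := hgt_nonneg _
    have h7 : hgt k (f j) ≤ Module.finrank L E * hgt k (f j) := by nlinarith
    refine h7.trans (h4.trans (mul_le_mul_of_nonneg_left ?_ (by positivity)))
    linarith
  refine (pht_cons_le h2).trans (le_of_eq ?_)
  push_cast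
  ring

/-- generic points of closed subvarieties -/
theorem exists_genericF {F ℒ : Type} [Field F] [Field ℒ] [Algebra F ℒ] {N : ℕ} {u : Fin N → ℒ}
    (I : Ideal (MvPolynomial (Fin N) F)) [hI : I.IsPrime]
    (hu : ∀ P : MvPolynomial (Fin N) F, MvPolynomial.aeval u P = 0 → P ∈ I) :
    ∃ (E : Type) (_ : Field E) (_ : Algebra F E) (w : ℕ) (z : Fin N → E), IsSub F u z w ∧
      (∀ P : MvPolynomial (Fin N) F, MvPolynomial.aeval z P = 0 ↔ P ∈ I) ∧
      (w = 0 → ∀ j, ∃ p : Polynomial F, p ≠ 0 ∧ Polynomial.aeval (MvPolynomial.X j) p ∈ I) := by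
  classical
  let A := MvPolynomial (Fin N) F ⧸ I
  let E := FractionRing A
  let z : Fin N → E := fun j => algebraMap A E (Ideal.Quotient.mk I (MvPolynomial.X j))
  have hz : ∀ P : MvPolynomial (Fin N) F, MvPolynomial.aeval z P =
      algebraMap A E (Ideal.Quotient.mk I P) := by
    intro P
    have h1 : MvPolynomial.aeval z =
        (IsScalarTower.toAlgHom F A E).comp (Ideal.Quotient.mkₐ F I) := by
      apply MvPolynomial.algHom_ext
      intro j
      rw [MvPolynomial.aeval_X]
      rfl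
    rw [h1]
    rfl
  have hz0 : ∀ P : MvPolynomial (Fin N) F, MvPolynomial.aeval z P = 0 ↔ P ∈ I := by
    intro P
    rw [hz, map_eq_zero_iff _ (IsFractionRing.injective A E), Ideal.Quotient.eq_zero_iff_mem]
  have hgen : adjoin F (Set.range z) = ⊤ := by
    rw [eq_top_iff]
    rintro t -
    have hA : ∀ a : A, algebraMap A E a ∈ adjoin F (Set.range z) := by
      intro a
      obtain ⟨P, rfl⟩ := Ideal.Quotient.mk_surjective a
      rw [← hz, MvPolynomial.aeval_def, MvPolynomial.eval₂_eq']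
      exact sum_mem fun I _ => mul_mem (IntermediateField.algebraMap_mem _ _)
        (prod_mem fun j _ => pow_mem (subset_adjoin F (Set.range z) ⟨j, rfl⟩) _)
    obtain ⟨a, b, -, rfl⟩ := IsFractionRing.div_surjective (A := A) t
    exact div_mem (hA a) (hA b)
  have hess : Algebra.EssFiniteType F E := ess_of_adjoin hgen
  obtain ⟨w, hw⟩ := Cardinal.lt_aleph0.1 (trdeg_lt_aleph0 F E)
  refine ⟨E, inferInstance, inferInstance, w, z, ⟨fun P hP => (hz0 P).2 (hu P hP), hgen, hw⟩, hz0,
    fun h0 j => ?_⟩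
  rw [h0, Nat.cast_zero, trdeg_eq_zero_iff] at hw
  obtain ⟨p, hp, hpz⟩ := Algebra.IsAlgebraic.isAlgebraic (R := F) (z j)
  refine ⟨p, hp, (hz0 _).1 ?_⟩
  rw [← hpz, ← Polynomial.aeval_algHom_apply, MvPolynomial.aeval_X]

/-- **Vojta's height inequality off the exceptional subvarieties**, on which no correspondence is
generically finite. -/
theorem off_boundF (hfg : ∃ S : Finset F0, IntermediateField.adjoin k0 (S : Set F0) = ⊤) :
    ∃ A : ℕ, ∀ (L : Type) [Field L] [Algebra k L] [Algebra F L] [IsScalarTower k F L]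
      [FiniteDimensional F L] [IsFF k L] (f : Fin N → L),
      (∀ P : MvPolynomial (Fin N) F, MvPolynomial.aeval u P = 0 → MvPolynomial.aeval f P = 0) →
      pht k (Fin.cons 1 f : Fin (N + 1) → L) ≤
        A * (max (canDeg k L + (poles k f).ncard) 0 + Module.finrank F L) ∨ Exc F0 F u f := by
  classical
  suffices h : ∀ I : Ideal (MvPolynomial (Fin N) F), ∃ A : ℕ, ∀ (L : Type) [Field L]
      [Algebra k L] [Algebra F L] [IsScalarTower k F L] [FiniteDimensional F L] [IsFF k L]
      (f : Fin N → L),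
      (∀ P : MvPolynomial (Fin N) F, MvPolynomial.aeval u P = 0 → MvPolynomial.aeval f P = 0) →
      (∀ P ∈ I, MvPolynomial.aeval f P = 0) →
      pht k (Fin.cons 1 f : Fin (N + 1) → L) ≤
        A * (max (canDeg k L + (poles k f).ncard) 0 + Module.finrank F L) ∨ Exc F0 F u f by
    obtain ⟨A, hA⟩ := h ⊥
    refine ⟨A, fun L _ _ _ _ _ _ f hf => hA L f hf fun P hP => ?_⟩
    rw [Ideal.mem_bot] at hP
    rw [hP, map_zero]
  intro I
  induction I using IsNoetherian.induction with
  | _ I ih =>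
  have hsup : ∀ c : MvPolynomial (Fin N) F, c ∉ I → ∃ A : ℕ, ∀ (L : Type) [Field L]
      [Algebra k L] [Algebra F L] [IsScalarTower k F L] [FiniteDimensional F L] [IsFF k L]
      (f : Fin N → L),
      (∀ P : MvPolynomial (Fin N) F, MvPolynomial.aeval u P = 0 → MvPolynomial.aeval f P = 0) →
      (∀ P ∈ I, MvPolynomial.aeval f P = 0) → MvPolynomial.aeval f c = 0 →
      pht k (Fin.cons 1 f : Fin (N + 1) → L) ≤
        A * (max (canDeg k L + (poles k f).ncard) 0 + Module.finrank F L) ∨ Exc F0 F u f := by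
    intro c hc
    obtain ⟨A, hA⟩ := ih (I ⊔ Ideal.span {c}) (by
      refine lt_of_le_of_ne le_sup_left fun h => hc ?_
      rw [h]
      exact Ideal.mem_sup_right (Ideal.mem_span_singleton_self c))
    refine ⟨A, fun L _ _ _ _ _ _ f hf hI hfc => hA L f hf ?_⟩
    have h1 : I ⊔ Ideal.span {c} ≤ RingHom.ker (MvPolynomial.aeval (R := F) f) := by
      rw [sup_le_iff, Ideal.span_singleton_le_iff_mem]
      exact ⟨fun b hb => hI b hb, hfc⟩
    exact fun b hb => h1 hb
  have hnn : ∀ (L : Type) [Field L] [Algebra k L] [Algebra F L] [IsScalarTower k F L]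
      [FiniteDimensional F L] [IsFF k L] (f : Fin N → L),
      (0 : ℤ) ≤ max (canDeg k L + (poles k f).ncard) 0 + Module.finrank F L := by
    intro L _ _ _ _ _ _ f
    have := le_max_right (canDeg k L + (poles k f).ncard) 0
    positivity
  by_cases hI1 : I = ⊤
  · refine ⟨0, fun L _ _ _ _ _ _ f hf hI => ?_⟩
    have h1 := hI 1 (by rw [hI1]; trivial)
    rw [map_one] at h1
    exact absurd h1 one_ne_zero
  by_cases hIp : Ideal.IsPrime I
  swap
  · rw [Ideal.isPrime_iff] at hIp
    push Not at hIp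
    obtain ⟨a, b, hab, ha, hb⟩ := hIp hI1
    obtain ⟨A1, hA1⟩ := hsup a ha
    obtain ⟨A2, hA2⟩ := hsup b hb
    refine ⟨A1 + A2, fun L _ _ _ _ _ _ f hf hI => ?_⟩
    have h1 := hI _ hab
    rw [map_mul, mul_eq_zero] at h1
    push_cast
    rw [add_mul]
    have h2 := mul_nonneg (show (0 : ℤ) ≤ A1 by positivity) (hnn L f)
    have h3 := mul_nonneg (show (0 : ℤ) ≤ A2 by positivity) (hnn L f)
    rcases h1 with h1 | h1
    · exact (hA1 L f hf hI h1).imp (fun h => by linarith) id
    · exact (hA2 L f hf hI h1).imp (fun h => by linarith) id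
  by_cases hu : ∀ P : MvPolynomial (Fin N) F, MvPolynomial.aeval u P = 0 → P ∈ I
  swap
  · push Not at hu
    obtain ⟨c, hc, hcI⟩ := hu
    obtain ⟨A, hA⟩ := hsup c hcI
    exact ⟨A, fun L _ _ _ _ _ _ f hf hI => hA L f hf hI (hf c hc)⟩
  obtain ⟨E₀, _, _, w, z, hz, hzI, hw⟩ := exists_genericF (u := u) I hu
  by_cases hw0 : w = 0
  · choose p hp hpI using hw hw0
    choose A hA using fun j => root_hgtF k (hp j)
    refine ⟨N * ∑ j, A j, fun L _ _ _ _ _ _ f hf hI => Or.inl ?_⟩
    have h1 : ∀ j, hgt k (f j) ≤ (∑ j, (A j : ℤ)) * Module.finrank F L := by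
      intro j
      have h2 := hI _ (hpI j)
      rw [← Polynomial.aeval_algHom_apply, MvPolynomial.aeval_X] at h2
      refine (hA j L (f j) h2).trans (mul_le_mul_of_nonneg_right ?_ (by positivity))
      exact Finset.single_le_sum (f := fun j => (A j : ℤ)) (fun _ _ => by positivity)
        (Finset.mem_univ j)
    refine (pht_cons_le h1).trans ?_
    push_cast
    rw [← mul_assoc]
    have h2 : (0 : ℤ) ≤ (N : ℤ) * ∑ j, (A j : ℤ) :=
      mul_nonneg (by positivity) (Finset.sum_nonneg fun _ _ => by positivity)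
    refine mul_le_mul_of_nonneg_left ?_ h2
    have := le_max_right (canDeg k L + (poles k f).ncard) 0
    linarith
  by_cases hex : ∃ (W : Corr F0 F u) (r : ℕ), DefinedOver W.X ∧
      (∀ s : Fin N → AlgebraicClosure F,
        {φ : W.ring →ₐ[F] AlgebraicClosure F | W.Over φ s}.encard ≤ r) ∧
      2 * W.X.m + 2 * r ≤ W.X.size ∧ W.GenericallyFiniteOn z
  swap
  · push Not at hex
    exact ⟨0, fun L _ _ _ _ _ _ f hf hI => Or.inr ⟨E₀, _, _, w, z,
      Nat.pos_of_ne_zero hw0, hz, fun P hP => hI P ((hzI P).1 hP), hex⟩⟩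
  obtain ⟨W, r, hV, hr, hd, hW⟩ := hex
  obtain ⟨G, A1, hG, hA1⟩ := gf_boundF (k := k) hfg hV hr hW hd
  obtain ⟨A2, hA2⟩ := hsup G fun h => hG ((hzI G).2 h)
  refine ⟨A1 + A2, fun L _ _ _ _ _ _ f hf hI => ?_⟩
  push_cast
  rw [add_mul]
  have h2 := mul_nonneg (show (0 : ℤ) ≤ A1 by positivity) (hnn L f)
  have h3 := mul_nonneg (show (0 : ℤ) ≤ A2 by positivity) (hnn L f)
  by_cases h1 : MvPolynomial.aeval f G = 0
  · exact (hA2 L f hf hI h1).imp (fun h => by linarith) id
  · left
    have h4 := hA1 L f (fun P hP => hI P ((hzI P).1 hP)) h1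
    linarith

/-- the inequality with the exact Euler characteristic -/
theorem max_le (k F : Type) [Field k] [Field F] [IsAlgClosed k] [CharZero k] [Algebra k F]
    [IsFF k F] : ∃ C : ℕ, ∀ (L : Type) [Field L] [Algebra k L] [Algebra F L] [IsScalarTower k F L]
      [FiniteDimensional F L] [IsFF k L] (n : ℕ),
      max (canDeg k L + n) 0 ≤ canDeg k L + n + C * Module.finrank F L := by
  obtain ⟨C, hC⟩ := Pool.Agent.TH812.GV.sum_loss (k := k) (F := F) (q := fun _ => 0)
    (fun _ => le_rfl) (by simp)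
  refine ⟨C, fun L _ _ _ _ _ _ n => ?_⟩
  obtain ⟨-, h⟩ := hC L
  have h0 : (0 : ℤ) ≤ ∑ᶠ P : Place k L, (((ram F P : ℤ) - 1) + ram F P * 0) := by
    refine finsum_nonneg fun P => ?_
    have h1 : (1 : ℤ) ≤ ram F P := by exact_mod_cast (ram_spec (F := F) P).1
    omega
  have h1 := h0.trans h
  refine _root_.max_le ?_ ?_
  · have : (0 : ℤ) ≤ C * Module.finrank F L := by positivity
    linarith
  · have : (0 : ℤ) ≤ n := by positivity
    linarith

end

end Pool.Agent.N95.HN
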