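import Pool.Agent.N95.HN.Th
import Pool.Agent.N95.HK.Log
import Pool.Agent.W619.PQ.Local

/-!
Heights of the points of bounded degree, over the finite extensions of a function field, of generic
logarithmic pairs.
-/

set_option autoImplicit false
set_option linter.unusedSectionVars false
set_option linter.overlappingInstances false

open MvPolynomial FF Pool.Agent.W603.LV Pool.Agent.W603.PV
open Pool.Agent.TH145.MG (DimLE)
open Pool.Agent.Y735.R (hgt_le_of_ge trace_ge)

namespace Pool.Agent.N95.HN

section tower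

variable {k F K L : Type} [Field k] [Field F] [Field K] [Field L] [IsAlgClosed k] [CharZero k]
  [Algebra k F] [Algebra k K] [Algebra k L] [Algebra F K] [Algebra F L] [Algebra K L]
  [IsScalarTower k F K] [IsScalarTower k F L] [IsScalarTower k K L] [IsScalarTower F K L]
  [FiniteDimensional F K] [FiniteDimensional K L] [FiniteDimensional F L] [IsFF k F] [IsFF k K]
  [IsFF k L]

omit [IsScalarTower k K L] [FiniteDimensional F L] [FiniteDimensional K L] [Algebra K L]
  [IsScalarTower F K L] [Algebra F L] [IsScalarTower k F L] [IsFF k L] [Algebra k L] [Field L] in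
theorem over_under (P : Place k K) : Over P (under F P) (ram F P) :=
  ⟨(ram_spec (F := F) P).1, fun f => ord_under P f⟩

theorem under_tower (P : Place k L) : under F P = under F (under K P) ∧
    ram F P = ram K P * ram F (under K P) := by
  have h1 := over_under (F := F) P
  have h2 := Pool.Agent.W619.PQ.over_trans (over_under (F := K) P)
    (over_under (F := F) (under K P))
  exact Pool.Agent.Y172.over_unique' h1 h2

end tower

section main

variable {k0 k F0 F : Type} [Field k0] [Field k] [Field F0] [Field F] [IsAlgClosed k]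
    [CharZero k] [Algebra k0 k] [Algebra k F] [Algebra k0 F] [IsScalarTower k0 k F]
    [Algebra k0 F0] [Algebra F0 F] [IsScalarTower k0 F0 F] [IsFF k F]

/-- Heights of the coordinates of the points of a given degree. -/
theorem coord_boundF (hfg : ∃ S : Finset F0, IntermediateField.adjoin k0 (S : Set F0) = ⊤)
    {n m : ℕ} (V : Set (MvPolynomial (Fin (n + 1)) F0)) (hV : DimLE F0 V m) {α : Type} [Fintype α]
    (H : α → MvPolynomial (Fin (n + 1)) F) (d : α → ℕ) (hH : ∀ a, (H a).IsHomogeneous (d a))
    (I0 : α → Fin (n + 1) →₀ ℕ) (hI0 : ∀ a, (H a).coeff (I0 a) ≠ 0)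
    (hgen : AlgebraicIndependent F0 fun p : {p : α × (Fin (n + 1) →₀ ℕ) //
      p.2.degree = d p.1 ∧ p.2 ≠ I0 p.1} => (H p.1.1).coeff p.1.2 / (H p.1.1).coeff (I0 p.1.1))
    (z s : ℕ) (hd : 2 * m + 2 * s ≤ ∑ a, d a + z) :
    ∃ B : ℕ, ∀ (K L : Type) [Field K] [Field L] [Algebra k K] [Algebra k L] [Algebra F K]
      [Algebra F L] [Algebra K L] [IsScalarTower k F K] [IsScalarTower k F L]
      [IsScalarTower k K L] [IsScalarTower F K L] [FiniteDimensional F K] [FiniteDimensional K L]
      [IsFF k K] [IsFF k L], Module.finrank K L = s →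
      ∀ (x : Fin (n + 1) → L) (l0 : Fin (n + 1)), x l0 = 1 →
      IntermediateField.adjoin K (Set.range x) = ⊤ →
      (∀ f ∈ V, aeval x (map (algebraMap F0 F) f) = 0) → z ≤ {a | aeval x (H a) = 0}.ncard →
      ∀ S : Set (Place k K), S.Finite →
      (∀ (P : Place k K) (Q : Place k L) (e : ℕ), Over Q P e →
        (∃ a, aeval x (H a) ≠ 0 ∧ d a * pord Q x < Q.ord (aeval x (H a))) → P ∈ S) →
      ∀ j, hgt k (x j) ≤ B * (max (canDeg k K + S.ncard) 0 + Module.finrank F K) := by
  classical
  obtain ⟨R, hR0, hRf, hth⟩ := theta_all (k := k) hfg V hV H d hH I0 hI0 hgen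
  obtain ⟨C, hC⟩ := Pool.Agent.N95.HK.hgt_coords k s (n + 1)
  obtain ⟨C1, hC1⟩ := Pool.Agent.TH812.GV.sum_loss (k := k) hR0 hRf
  refine ⟨C * (C1 + 1), fun K L _ _ _ _ _ _ _ _ _ _ _ _ _ _ _ hs x l0 hx hgen hxV hz S hS
    hSm j => ?_⟩
  have hfdL : FiniteDimensional F L := FiniteDimensional.trans F K L
  have hx0 : x ≠ 0 := by
    intro h
    have h1 := congrFun h l0
    rw [hx] at h1
    exact one_ne_zero h1
  obtain ⟨Θ, hΘ, c, hc, hloc⟩ := hth L x hx0 hxV
  have hs1 : 0 < s := by rw [← hs]; exact Module.finrank_pos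
  have hc1 : ((2 * s - 1 : ℕ) : ℤ) ≤ c := by
    have h1 : ((2 * s - 1 : ℕ) : ℤ) = 2 * s - 1 := by omega
    have h2 : (2 * (m : ℤ) + 2 * s) ≤ ∑ a, (d a : ℤ) + z := by exact_mod_cast hd
    have h3 : (z : ℤ) ≤ {a | aeval x (H a) = 0}.ncard := by exact_mod_cast hz
    linarith
  -- the poles of the traces
  obtain ⟨ε, hε⟩ : ∃ ε : Place k K → ℤ, ∀ P, ε P = if P ∈ S then 1 else 0 := ⟨_, fun _ => rfl⟩
  obtain ⟨b, hb⟩ : ∃ b : Place k K → ℤ, ∀ v, b v =
    (((ram F v : ℤ) - 1) + ram F v * R (under F v)) + ε v := ⟨_, fun _ => rfl⟩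
  have hε0 : ∀ v, 0 ≤ ε v := fun v => by
    rw [hε]
    split_ifs <;> norm_num
  have hb0 : ∀ v, 0 ≤ b v := fun v => by
    rw [hb]
    have h1 : (1 : ℤ) ≤ ram F v := by exact_mod_cast (ram_spec (F := F) v).1
    have h2 := mul_nonneg (show (0 : ℤ) ≤ ram F v by positivity) (hR0 (under F v))
    have h3 := hε0 v
    omega
  obtain ⟨T, hT⟩ : ∃ T : (Fin (2 * s - 1) → Fin (n + 1)) → K, ∀ f, T f =
    Algebra.trace K L ((∏ i, x (f i)) * Θ) := ⟨_, fun _ => rfl⟩
  have hTr : ∀ f v, Ge v (-b v) (T f) := by
    intro f v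
    rw [hT]
    refine trace_ge (b := b) (fun P => ?_) v
    have h1 : Ge P (P.ord Θ) Θ := Or.inr le_rfl
    have h2 := Pool.Agent.Y735.R2.ge_prod P Finset.univ (fun i => x (f i))
      (fun _ : Fin (2 * s - 1) => pord P x) (fun i _ => Pool.Agent.Y735.R2.ge_coord x P (f i))
    rw [Finset.sum_const, Finset.card_univ, Fintype.card_fin, nsmul_eq_mul] at h2
    refine (h2.mul h1).mono ?_
    have h3 := hloc P
    have h4 := Pool.Agent.Y735.R2.pord_nonpos hx P
    have h5 : (c - (2 * s - 1 : ℕ)) * pord P x ≤ 0 :=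
      mul_nonpos_of_nonneg_of_nonpos (by linarith) h4
    obtain ⟨h6, h7⟩ := under_tower (F := F) (K := K) P
    have h8 : (1 : ℤ) ≤ ram K P := by exact_mod_cast (ram_spec (F := K) P).1
    have h9 : (if ∃ a, aeval x (H a) ≠ 0 ∧ d a * pord P x < P.ord (aeval x (H a)) then (1 : ℤ)
        else 0) ≤ ram K P * ε (under K P) := by
      by_cases h : ∃ a, aeval x (H a) ≠ 0 ∧ d a * pord P x < P.ord (aeval x (H a))
      · rw [if_pos h, hε, if_pos (hSm (under K P) P (ram K P) (over_under P) h)]
        linarith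
      · rw [if_neg h]
        exact mul_nonneg (by linarith) (hε0 _)
    rw [h6, h7] at h3
    rw [hb]
    push_cast at h3 ⊢
    nlinarith
  -- the sum
  have hεf : (Function.support ε).Finite := hS.subset fun P hP => by
    by_contra h
    exact hP (by rw [hε, if_neg h])
  have hεs : ∑ᶠ v, ε v = S.ncard := by
    rw [finsum_eq_sum_of_support_subset (s := hS.toFinset) ε (by
      intro P hP
      rw [hS.coe_toFinset]
      by_contra h
      exact hP (by rw [hε, if_neg h])), Set.ncard_eq_toFinset_card S hS]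
    rw [Finset.sum_congr rfl fun P hP => by
      rw [hε, if_pos (hS.mem_toFinset.1 hP)]]
    simp
  obtain ⟨hlf, hls⟩ := hC1 K
  obtain ⟨H', hH'⟩ : ∃ H' : ℤ, H' = max (canDeg k K + S.ncard) 0 + C1 * Module.finrank F K :=
    ⟨_, rfl⟩
  have hH'0 : 0 ≤ H' := by
    rw [hH']
    have := le_max_right (canDeg k K + S.ncard) 0
    positivity
  obtain ⟨c0, hc0, hct⟩ : ∃ c0 : K, c0 ≠ 0 ∧ ∀ f, hgt k (T f / c0) ≤ H' := by
    by_cases hall : ∀ f, T f = 0
    · refine ⟨1, one_ne_zero, fun f => ?_⟩
      rw [hall f, zero_div, hgt_zero]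
      exact hH'0
    · push Not at hall
      obtain ⟨f0, hf0⟩ := hall
      refine ⟨T f0, hf0, fun f => ?_⟩
      have hc2 : ∀ v : Place k K, -b v ≤ v.ord (T f0) := fun v => by
        rcases hTr f0 v with h | h
        · exact absurd h hf0
        · exact h
      have hfin1 : (Function.support fun v : Place k K =>
          (((ram F v : ℤ) - 1) + ram F v * R (under F v))).Finite := hlf
      have hbf : (Function.support b).Finite := by
        refine (hfin1.union hεf).subset fun v hv => ?_
        by_contra hcon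
        simp only [Set.mem_union, Function.mem_support, not_or, not_not] at hcon
        apply hv
        rw [hb, hcon.1, hcon.2, add_zero]
      have hfin : {v : Place k K | v.ord (T f0) + b v ≠ 0}.Finite := by
        refine ((finite_support (k := k) (T f0)).union hbf).subset fun v hv => ?_
        by_contra hcon
        simp only [Set.mem_union, not_or] at hcon
        have h1 : v.ord (T f0) = 0 := by
          by_contra h
          exact hcon.1 h
        have h2 : b v = 0 := by
          by_contra h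
          exact hcon.2 h
        apply hv
        rw [h1, h2, add_zero]
      refine (hgt_le_of_ge (k := k) (b := fun v => v.ord (T f0) + b v)
        (fun v => by linarith [hc2 v]) hfin fun v => ?_).trans ?_
      · by_cases hTf : T f = 0
        · left
          rw [hTf, zero_div]
        · right
          rw [v.ord_div hTf hf0]
          rcases hTr f v with h | h
          · exact absurd h hTf
          · linarith
      · have h1 : (fun v : Place k K => v.ord (T f0) + b v) = fun v => v.ord (T f0) +
            ((((ram F v : ℤ) - 1) + ram F v * R (under F v)) + ε v) := by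
          funext v
          rw [hb]
        have h2 : (Function.support fun v : Place k K =>
            ((((ram F v : ℤ) - 1) + ram F v * R (under F v)) + ε v)).Finite := by
          have h3 : (fun v : Place k K =>
            ((((ram F v : ℤ) - 1) + ram F v * R (under F v)) + ε v)) = b := funext fun v => (hb v).symm
          rw [h3]
          exact hbf
        rw [h1, finsum_add_distrib (finite_support (k := k) (T f0)) h2, sum_ord, zero_add,
          finsum_add_distrib hfin1 hεf, hεs, hH']
        have h3 := le_max_left (canDeg k K + S.ncard) 0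
        linarith
  have h1 := hC K L hs x l0 Θ c0 H' hx hgen hΘ hc0 hH'0 (fun f => by
    rw [← hT]
    exact hct f) j
  refine h1.trans ?_
  rw [hH']
  have h2 := le_max_right (canDeg k K + S.ncard) 0
  have h3 : (0 : ℤ) ≤ Module.finrank F K := by positivity
  push_cast
  have h4 : max (canDeg k K + (S.ncard : ℤ)) 0 + C1 * Module.finrank F K ≤
      (C1 + 1) * (max (canDeg k K + (S.ncard : ℤ)) 0 + Module.finrank F K) := by
    have h5 : (0 : ℤ) ≤ C1 * max (canDeg k K + (S.ncard : ℤ)) 0 := by positivity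
    nlinarith
  rw [mul_assoc]
  exact mul_le_mul_of_nonneg_left h4 (by positivity)

/-- **Heights of the points of bounded degree.** -/
theorem log_boundF (hfg : ∃ S : Finset F0, IntermediateField.adjoin k0 (S : Set F0) = ⊤)
    {n m : ℕ} (V : Set (MvPolynomial (Fin (n + 1)) F0)) (hV : DimLE F0 V m) {α : Type} [Fintype α]
    (H : α → MvPolynomial (Fin (n + 1)) F) (d : α → ℕ) (hH : ∀ a, (H a).IsHomogeneous (d a))
    (I0 : α → Fin (n + 1) →₀ ℕ) (hI0 : ∀ a, (H a).coeff (I0 a) ≠ 0)
    (hgen : AlgebraicIndependent F0 fun p : {p : α × (Fin (n + 1) →₀ ℕ) //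
      p.2.degree = d p.1 ∧ p.2 ≠ I0 p.1} => (H p.1.1).coeff p.1.2 / (H p.1.1).coeff (I0 p.1.1))
    (z R : ℕ) (hd : 2 * m + 2 * R ≤ ∑ a, d a + z) :
    ∃ B : ℕ, ∀ (K L : Type) [Field K] [Field L] [Algebra k K] [Algebra k L] [Algebra F K]
      [Algebra F L] [Algebra K L] [IsScalarTower k F K] [IsScalarTower k F L]
      [IsScalarTower k K L] [IsScalarTower F K L] [FiniteDimensional F K] [FiniteDimensional K L]
      [IsFF k K] [IsFF k L], Module.finrank K L ≤ R →
      ∀ (x : Fin (n + 1) → L) (l0 : Fin (n + 1)), x l0 = 1 →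
      IntermediateField.adjoin K (Set.range x) = ⊤ →
      (∀ f ∈ V, aeval x (map (algebraMap F0 F) f) = 0) → z ≤ {a | aeval x (H a) = 0}.ncard →
      ∀ S : Set (Place k K), S.Finite →
      (∀ (P : Place k K) (Q : Place k L) (e : ℕ), Over Q P e →
        (∃ a, aeval x (H a) ≠ 0 ∧ d a * pord Q x < Q.ord (aeval x (H a))) → P ∈ S) →
      ∀ j, hgt k (x j) ≤ B * (max (canDeg k K + S.ncard) 0 + Module.finrank F K) := by
  classical
  choose B hB using fun s : Fin (R + 1) => coord_boundF (k := k) hfg V hV H d hH I0 hI0 hgen z s.1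
    (by have := s.2; omega)
  refine ⟨∑ s, B s, fun K L _ _ _ _ _ _ _ _ _ _ _ _ _ _ _ hs x l0 hx hgen hxV hz S hS
    hSm j => ?_⟩
  refine (hB ⟨Module.finrank K L, Nat.lt_succ_of_le hs⟩ K L rfl x l0 hx hgen hxV hz S
    hS hSm j).trans (mul_le_mul_of_nonneg_right ?_ ?_)
  · exact_mod_cast Finset.single_le_sum (f := B) (fun _ _ => Nat.zero_le _) (Finset.mem_univ _)
  · have h2 := le_max_right (canDeg k K + S.ncard) 0
    positivity

end main

end Pool.Agent.N95.HN
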