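import Pool.Agent.N95.HN.Lv

/-!
The geometric fibres of a correspondence over a normal variety.
-/

set_option autoImplicit false
set_option linter.unusedSectionVars false
set_option linter.overlappingInstances false

open IntermediateField

namespace Pool.Agent.N95.HN

open Pool.Agent.N111.GJ

variable {k K : Type} [Field k] [Field K] [Algebra k K] {L : Type} [Field L] [Algebra K L]
    {N : ℕ} {u : Fin N → L}

/-- **Geometric fibres over normal varieties.** -/
theorem fib_normalF [Infinite K] (W : Corr k K u) (hnorm : ∀ z : L, IsIntegral (Algebra.adjoin K (Set.range u)) z →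
      z ∈ Algebra.adjoin K (Set.range u)) {Ω : Type} [Field Ω] [Algebra K Ω] (s : Fin N → Ω) :
    {φ : W.ring →ₐ[K] Ω | W.Over φ s}.encard ≤ W.deg := by
  classical
  by_contra hcon
  rw [not_le] at hcon
  have h0 : ((W.deg + 1 : ℕ) : ℕ∞) ≤ {φ : W.ring →ₐ[K] Ω | W.Over φ s}.encard := by
    have := Order.add_one_le_of_lt hcon
    exact_mod_cast this
  obtain ⟨T', hT's, hT'c⟩ := Set.exists_subset_encard_eq h0
  have hT'f : T'.Finite := by
    rw [← Set.encard_lt_top_iff, hT'c]
    exact ENat.natCast_lt_top _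
  obtain ⟨T, rfl⟩ := hT'f.exists_finset_coe
  have hTc : T.card = W.deg + 1 := by
    rw [Set.encard_coe_eq_coe_finsetCard] at hT'c
    exact_mod_cast hT'c
  obtain ⟨q, y, hy⟩ := W.enum'
  have hym : ∀ i, (y i : W.L') ∈ W.mons := by
    intro i
    have h1 : y i ∈ Set.range y := ⟨i, rfl⟩
    rw [hy] at h1
    exact h1
  have hym' : ∀ y' : W.ring, (y' : W.L') ∈ W.mons → ∃ i, y i = y' := by
    intro y' h'
    have h1 : y' ∈ {y : W.ring | (y : W.L') ∈ W.mons} := h'
    rw [← hy] at h1
    exact h1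
  -- a separating element
  obtain ⟨p, hp⟩ : ∃ p : (W.ring →ₐ[K] Ω) × (W.ring →ₐ[K] Ω) → Polynomial Ω, p = fun c =>
    ∑ i : Fin q, Polynomial.monomial (i : ℕ) (c.1 (y i) - c.2 (y i)) := ⟨_, rfl⟩
  have hpe : ∀ c τ, (p c).eval τ = ∑ i : Fin q, (c.1 (y i) - c.2 (y i)) * τ ^ (i : ℕ) := by
    intro c τ
    rw [hp, Polynomial.eval_finsetSum]
    exact Finset.sum_congr rfl fun i _ => Polynomial.eval_monomial
  have hpc : ∀ c (i : Fin q), (p c).coeff i = c.1 (y i) - c.2 (y i) := by
    intro c i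
    rw [hp]
    simp only [Polynomial.finsetSum_coeff, Polynomial.coeff_monomial]
    rw [Finset.sum_eq_single i]
    · rw [if_pos rfl]
    · intro j _ hj
      rw [if_neg]
      intro h
      exact hj (Fin.ext h)
    · intro h
      exact absurd (Finset.mem_univ i) h
  have hbad : (⋃ c ∈ T ×ˢ T, (↑(p c).roots.toFinset : Set Ω)).Finite :=
    (Finset.finite_toSet _).biUnion fun c _ => Finset.finite_toSet _
  obtain ⟨τ, hτ⟩ := (hbad.preimage (algebraMap K Ω).injective.injOn).infinite_compl.nonempty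
  obtain ⟨θ, hθ⟩ : ∃ θ : W.ring, θ = ∑ i : Fin q, algebraMap K W.ring (τ ^ (i : ℕ)) * y i :=
    ⟨_, rfl⟩
  have hθφ : ∀ φ : W.ring →ₐ[K] Ω, φ θ = ∑ i : Fin q, algebraMap K Ω τ ^ (i : ℕ) * φ (y i) := by
    intro φ
    rw [hθ, map_sum]
    exact Finset.sum_congr rfl fun i _ => by rw [map_mul, AlgHom.commutes, map_pow]
  have hinj : Set.InjOn (fun φ : W.ring →ₐ[K] Ω => φ θ) T := by
    intro φ hφ ψ hψ h
    change φ θ = ψ θ at h
    by_contra hne
    have h1 : p (φ, ψ) ≠ 0 := by
      intro h1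
      apply hne
      refine W.hom_ext (fun j => ?_) fun y' hy' => ?_
      · rw [hT's hφ j _ rfl, hT's hψ j _ rfl]
      · obtain ⟨i, rfl⟩ := hym' y' hy'
        have h2 := hpc (φ, ψ) i
        rw [h1, Polynomial.coeff_zero] at h2
        exact sub_eq_zero.1 h2.symm
    apply hτ
    refine Set.mem_biUnion (x := (φ, ψ)) (Finset.mem_coe.2 (Finset.mem_product.2 ⟨hφ, hψ⟩)) ?_
    rw [Finset.mem_coe, Multiset.mem_toFinset, Polynomial.mem_roots h1]
    change (p (φ, ψ)).eval (algebraMap K Ω τ) = 0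
    rw [hpe]
    have h2 : φ θ - ψ θ = 0 := sub_eq_zero.2 h
    rw [hθφ, hθφ, ← Finset.sum_sub_distrib] at h2
    refine Eq.trans ?_ h2
    exact Finset.sum_congr rfl fun i _ => by ring
  have hθi : IsIntegral (Algebra.adjoin K (Set.range u)) (θ : W.L') := by
    rw [hθ, AddSubmonoidClass.coe_finsetSum]
    refine IsIntegral.sum _ fun j _ => ?_
    change IsIntegral _ ((algebraMap K W.L' (τ ^ (j : ℕ))) * (y j : W.L'))
    refine IsIntegral.mul ?_ (W.mons_int (hym j))
    rw [IsScalarTower.algebraMap_apply K (Algebra.adjoin K (Set.range u)) W.L']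
    exact isIntegral_algebraMap
  obtain ⟨d, P, hd, hP⟩ := norm_eq hnorm hθi
  obtain ⟨Q, hQ⟩ : ∃ Q : Polynomial Ω, Q = Polynomial.X ^ d + ∑ i ∈ Finset.range d,
    Polynomial.C (MvPolynomial.aeval s (P i)) * Polynomial.X ^ i := ⟨_, rfl⟩
  have hlt : (∑ i ∈ Finset.range d,
      Polynomial.C (MvPolynomial.aeval s (P i)) * Polynomial.X ^ i).degree <
        ((d : ℕ) : WithBot ℕ) := by
    refine Polynomial.mem_degreeLT.1 (Submodule.sum_mem _ fun i hi =>
      Polynomial.mem_degreeLT.2 (lt_of_le_of_lt (Polynomial.degree_C_mul_X_pow_le _ _) ?_))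
    exact_mod_cast Finset.mem_range.1 hi
  have hQm : Q.Monic := by
    rw [hQ]
    exact Polynomial.monic_X_pow_add hlt
  have hQd : Q.natDegree = d := by
    rw [hQ]
    refine Polynomial.natDegree_eq_of_degree_eq_some ?_
    rw [add_comm, Polynomial.degree_add_eq_right_of_degree_lt (by
      rw [Polynomial.degree_X_pow]
      exact hlt), Polynomial.degree_X_pow]
  have hroot : ∀ φ ∈ T, φ θ ∈ Q.roots.toFinset := by
    intro φ hφ
    rw [Multiset.mem_toFinset, Polynomial.mem_roots hQm.ne_zero]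
    change Q.eval (φ θ) = 0
    have h1 := congrArg φ hP
    rw [map_zero, map_add, map_pow, map_sum] at h1
    rw [hQ, Polynomial.eval_add, Polynomial.eval_pow, Polynomial.eval_X,
      Polynomial.eval_finsetSum]
    refine Eq.trans ?_ h1
    congr 1
    refine Finset.sum_congr rfl fun i _ => ?_
    have h2 : (fun j => φ (W.uR j)) = s := funext fun j => hT's hφ j _ rfl
    rw [map_mul, map_pow, W.hom_aeval, h2, Polynomial.eval_mul, Polynomial.eval_C,
      Polynomial.eval_pow, Polynomial.eval_X]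
  have h1 := Finset.card_le_card_of_injOn (fun φ : W.ring →ₐ[K] Ω => φ θ) hroot hinj
  have h2 := (Multiset.toFinset_card_le Q.roots).trans (Polynomial.card_roots' Q)
  omega

end Pool.Agent.N95.HN
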