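import Pool.Agent.TH812.GV2.Vojta

/-!
The height inequality for the algebraic points on generic pairs over function fields, in the form of
an element of the function field with given poles.
-/

set_option autoImplicit false
set_option linter.unusedSectionVars false

open MvPolynomial FF Pool.Agent.W603.LV Pool.Agent.W603.PV Pool.Agent.TH145.GH
  Pool.Agent.TH145.MG Pool.Agent.W602.GT Pool.Agent.W603.CZ

namespace Pool.Agent.N95.HN

open Pool.Agent.TH812.GV Pool.Agent.TH812.GV2

section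

variable {k K : Type} [Field k] [Field K] [Algebra k K] [IsAlgClosed k] [CharZero k] [IsFF k K]
  {n : ℕ} {α : Type} {F : α → MvPolynomial (Fin (n + 1)) K} {d : α → ℕ}
    {D : α → (Fin (n + 1) →₀ ℕ) → Derivation ℤ K K} {ep : α → (Fin (n + 1) →₀ ℕ) → ℕ}
    {q e : Place k K → ℤ}

open Classical in
/-- The element of the function field that gives the height inequality. -/
theorem theta_sys [Fintype α] (hS : SysS k F d D ep q e) {x : Fin (n + 1) → K} (hx0 : x ≠ 0) {m : ℕ}
    (W : Submodule K (Fin (n + 1) → K)) (hWm : Module.finrank K W ≤ m + 1) (hxW : x ∈ W)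
    (hDW : ∀ a (I : Fin (n + 1) →₀ ℕ), I.degree = d a → (fun l => D a I (x l)) ∈ W) :
    ∃ Θ : K, Θ ≠ 0 ∧ ∃ c : ℤ, (∑ a, (d a : ℤ)) +
      ((Finset.univ.filter fun a => eval x (F a) = 0).card : ℤ) - 2 * m - 1 ≤ c ∧
      ∀ P : Place k K, -c * pord P x - ((if ∃ a, eval x (F a) ≠ 0 ∧
        d a * pord P x < P.ord (eval x (F a)) then 1 else 0) +
          (e P + ((Finset.univ.filter fun a => eval x (F a) ≠ 0).card + m + 2) * q P)) ≤
        P.ord Θ := by
  obtain ⟨l0, hl0⟩ := Function.ne_iff.1 hx0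
  have hl0' : x l0 ≠ 0 := hl0
  obtain ⟨v, hdet, hv⟩ := exists_adapted (gw d D x l0) Gn.lev span_gw
  obtain ⟨t0, ht0⟩ := sel_x hx0 hdet hv
  have hselv := sel_v2 hS hl0' hdet hv
  have hT := card_T hdet W hWm hxW hDW
  obtain ⟨S, hSd⟩ : ∃ S : Finset α, S = Finset.univ.filter fun a => ∀ t, v t ≠ Gn.v a := ⟨_, rfl⟩
  have hSv : ∀ a ∈ S, ∀ t, v t ≠ Gn.v a := fun a ha => by
    rw [hSd, Finset.mem_filter] at ha
    exact ha.2
  have hS0 : ∀ a ∈ S, eval x (F a) ≠ 0 := by
    intro a ha h0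
    obtain ⟨t, ht⟩ := hselv a h0
    exact hSv a ha t ht
  have hwt := sum_wt (d := d) ht0 hT S (fun a ha => by
    rw [hSd, Finset.mem_filter, not_and] at ha
    have := ha (Finset.mem_univ _)
    push Not at this
    exact this)
  obtain ⟨w, hw⟩ : ∃ w : ℤ, w = ∑ t, (v t).wt d := ⟨_, rfl⟩
  obtain ⟨Θ, hΘ⟩ : ∃ Θ, Θ = (Matrix.of fun t => gw d D x l0 (v t)).det /
    ∏ a ∈ S, eval x (F a) := ⟨_, rfl⟩
  have hprod0 : ∏ a ∈ S, eval x (F a) ≠ 0 := Finset.prod_ne_zero_iff.2 hS0
  have hΘ0 : Θ ≠ 0 := by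
    rw [hΘ]; exact div_ne_zero hdet hprod0
  have hordprod : ∀ (P : Place k K) (s : Finset α), (∀ a ∈ s, eval x (F a) ≠ 0) →
      P.ord (∏ a ∈ s, eval x (F a)) = ∑ a ∈ s, P.ord (eval x (F a)) := by
    intro P s
    induction s using Finset.induction_on with
    | empty => intro _; simp [P.ord_one]
    | insert a s ha ih =>
      intro h
      rw [Finset.prod_insert ha, Finset.sum_insert ha, P.ord_mul (h a (Finset.mem_insert_self _ _))
        (Finset.prod_ne_zero_iff.2 fun b hb => h b (Finset.mem_insert_of_mem hb)),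
        ih fun b hb => h b (Finset.mem_insert_of_mem hb)]
  -- the local inequality
  have hloc : ∀ P : Place k K, (w - ∑ a ∈ S, (d a : ℤ)) * pord P x -
      ((if ∃ a, eval x (F a) ≠ 0 ∧ d a * pord P x < P.ord (eval x (F a)) then 1 else 0) +
          (e P + ((Finset.univ.filter fun a => eval x (F a) ≠ 0).card + m + 2) * q P)) ≤
      P.ord Θ := by
    intro P
    have hq0 := hS.qnn P
    obtain ⟨S', hS'⟩ : ∃ S' : Finset α, S' = S.filter fun a =>
      d a * pord P x < P.ord (eval x (F a)) := ⟨_, rfl⟩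
    have h1 := local_ge2 hS hl0' v hdet hv hT S' (fun a ha => hSv a (by
      rw [hS', Finset.mem_filter] at ha; exact ha.1)) (fun a ha => hS0 a (by
      rw [hS', Finset.mem_filter] at ha; exact ha.1)) P
    rw [← hw] at h1
    have h2 : P.ord Θ = P.ord (Matrix.of fun t => gw d D x l0 (v t)).det -
        ∑ a ∈ S, P.ord (eval x (F a)) := by
      rw [hΘ, P.ord_div hdet hprod0, hordprod P S hS0]
    have h3 : ∑ a ∈ S, P.ord (eval x (F a)) ≤ ∑ a ∈ S', (P.ord (eval x (F a)) - d a * pord P x) +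
        (∑ a ∈ S, (d a : ℤ)) * pord P x := by
      have h4 : ∑ a ∈ S, P.ord (eval x (F a)) = ∑ a ∈ S, (P.ord (eval x (F a)) - d a * pord P x) +
          (∑ a ∈ S, (d a : ℤ)) * pord P x := by
        rw [Finset.sum_mul, ← Finset.sum_add_distrib]
        exact Finset.sum_congr rfl fun a _ => by ring
      rw [h4, hS', Finset.sum_filter]
      refine add_le_add_left (Finset.sum_le_sum fun a _ => ?_) _
      split_ifs with h
      · exact le_rfl
      · omega
    have h5 : ∑ a ∈ S', (P.ord (eval x (F a)) - d a * pord P x - q P) =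
        ∑ a ∈ S', (P.ord (eval x (F a)) - d a * pord P x) - S'.card * q P := by
      rw [← nsmul_eq_mul, ← Finset.sum_const, ← Finset.sum_sub_distrib]
    have h6 : (if S' = ∅ then (0 : ℤ) else 1) ≤ if ∃ a, eval x (F a) ≠ 0 ∧
        d a * pord P x < P.ord (eval x (F a)) then 1 else 0 := by
      by_cases h : S' = ∅
      · rw [if_pos h]; split_ifs <;> norm_num
      · obtain ⟨a, ha⟩ := Finset.nonempty_iff_ne_empty.2 h
        rw [hS', Finset.mem_filter] at ha
        rw [if_neg h, if_pos ⟨a, hS0 a ha.1, ha.2⟩]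
    have h7 : (S'.card : ℤ) * q P ≤ (Finset.univ.filter fun a => eval x (F a) ≠ 0).card * q P := by
      refine mul_le_mul_of_nonneg_right ?_ hq0
      have : S' ⊆ Finset.univ.filter fun a => eval x (F a) ≠ 0 := by
        intro a ha
        rw [hS', Finset.mem_filter] at ha
        exact Finset.mem_filter.2 ⟨Finset.mem_univ _, hS0 a ha.1⟩
      exact_mod_cast Finset.card_le_card this
    rw [h5] at h1
    rw [h2]
    have h9 : (((Finset.univ.filter fun a => eval x (F a) ≠ 0).card : ℤ) + m + 2) * q P =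
        (Finset.univ.filter fun a => eval x (F a) ≠ 0).card * q P + (m + 2) * q P := by
      ring
    rw [h9, sub_mul]
    linarith
  refine ⟨Θ, hΘ0, ∑ a ∈ S, (d a : ℤ) - w, ?_, fun P => ?_⟩
  · have g6 : (∑ a, (d a : ℤ)) + ((Finset.univ.filter fun a => eval x (F a) = 0).card : ℤ) -
        2 * m - 1 ≤ ∑ a ∈ S, (d a : ℤ) - w := by
      have h1 : ∑ a ∈ S, (d a : ℤ) + ∑ a ∈ Sᶜ, (d a : ℤ) = ∑ a, (d a : ℤ) :=
        Finset.sum_add_sum_compl S _
      have h2 : ∑ a ∈ Sᶜ, ((d a : ℤ) + 1) = ∑ a ∈ Sᶜ, (d a : ℤ) + Sᶜ.card := by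
        rw [Finset.sum_add_distrib]
        simp
      have h3 : ((Finset.univ.filter fun a => eval x (F a) = 0).card : ℤ) ≤ Sᶜ.card := by
        have : (Finset.univ.filter fun a => eval x (F a) = 0) ⊆ Sᶜ := by
          intro a ha
          rw [Finset.mem_compl]
          intro haS
          exact hS0 a haS (Finset.mem_filter.1 ha).2
        exact_mod_cast Finset.card_le_card this
      rw [h2] at hwt
      rw [hw]
      linarith
    exact g6
  · have h1 := hloc P
    rw [neg_sub]
    exact h1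

end

open Classical in
/-- **The element of the function field that gives the height inequality**, for the algebraic points
on generic pairs. -/
theorem theta_all {k0 k F0 F : Type} [Field k0] [Field k] [Field F0] [Field F] [IsAlgClosed k]
    [CharZero k] [Algebra k0 k] [Algebra k F] [Algebra k0 F] [IsScalarTower k0 k F]
    [Algebra k0 F0] [Algebra F0 F] [IsScalarTower k0 F0 F] [IsFF k F]
    (hfg : ∃ S : Finset F0, IntermediateField.adjoin k0 (S : Set F0) = ⊤) {n m : ℕ}
    (V : Set (MvPolynomial (Fin (n + 1)) F0)) (hV : DimLE F0 V m) {α : Type} [Fintype α]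
    (H : α → MvPolynomial (Fin (n + 1)) F) (d : α → ℕ) (hH : ∀ a, (H a).IsHomogeneous (d a))
    (I0 : α → Fin (n + 1) →₀ ℕ) (hI0 : ∀ a, (H a).coeff (I0 a) ≠ 0)
    (hgen : AlgebraicIndependent F0 fun p : {p : α × (Fin (n + 1) →₀ ℕ) //
      p.2.degree = d p.1 ∧ p.2 ≠ I0 p.1} => (H p.1.1).coeff p.1.2 / (H p.1.1).coeff (I0 p.1.1)) :
    ∃ R : Place k F → ℤ, (∀ v, 0 ≤ R v) ∧ {v | R v ≠ 0}.Finite ∧
      ∀ (L : Type) [Field L] [Algebra k L] [Algebra F L] [IsScalarTower k F L]
        [FiniteDimensional F L] [IsFF k L] (x : Fin (n + 1) → L), x ≠ 0 →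
        (∀ f ∈ V, aeval x (map (algebraMap F0 F) f) = 0) →
        ∃ Θ : L, Θ ≠ 0 ∧ ∃ c : ℤ,
          (∑ a, (d a : ℤ)) + {a | aeval x (H a) = 0}.ncard - 2 * m - 1 ≤ c ∧
          ∀ P : Place k L, -c * pord P x - ((if ∃ a, aeval x (H a) ≠ 0 ∧
            d a * pord P x < P.ord (aeval x (H a)) then 1 else 0) +
              (((ram F P : ℤ) - 1) + ram F P * R (under F P))) ≤ P.ord Θ := by
  classical
  have hF : CharZero F := charZero_of_injective_algebraMap (algebraMap k F).injective
  have := finite_Ix d I0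
  have := Fintype.ofFinite (Ix d I0)
  -- normalised forms
  obtain ⟨G, hG⟩ : ∃ G : α → MvPolynomial (Fin (n + 1)) F, ∀ a,
    G a = C ((H a).coeff (I0 a))⁻¹ * H a := ⟨_, fun _ => rfl⟩
  have hGc : ∀ a I, (G a).coeff I = (H a).coeff I / (H a).coeff (I0 a) := by
    intro a I
    rw [hG, coeff_C_mul, mul_comm, div_eq_mul_inv]
  have hG1 : ∀ a, (G a).coeff (I0 a) = 1 := fun a => by rw [hGc, div_self (hI0 a)]
  have hGh : ∀ a, (G a).IsHomogeneous (d a) := fun a => by
    rw [hG]
    have := (isHomogeneous_C (Fin (n + 1)) ((H a).coeff (I0 a))⁻¹).mul (hH a)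
    rwa [zero_add] at this
  obtain ⟨Db, hDbg, hDbk, hDb⟩ := exists_duals2 (k0 := k0) (k := k) (F0 := F0) (F := F) hfg
    (fun p : Ix d I0 => (G p.1.1).coeff p.1.2) (by
      have h1 : (fun p : Ix d I0 => (G p.1.1).coeff p.1.2) = fun p : Ix d I0 =>
          (H p.1.1).coeff p.1.2 / (H p.1.1).coeff (I0 p.1.1) := by
        funext p
        rw [hGc]
      rw [h1]
      exact hgen)
  obtain ⟨D, hD⟩ : ∃ D, D = sysD G d I0 Db := ⟨_, rfl⟩
  have hdual : DualS G d D (sysE I0) := hD ▸ sysD_dual hG1 hDb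
  have hgood : ∀ a I, GoodS k (D a I) := by
    intro a I
    rw [hD]
    exact sysD_prop (GoodS k) GoodS.zero (fun D E h h' => h.add h') (fun q => (hDbg q).smul _)
      (fun D h => h.neg) hDbg a I
  have hDk : ∀ a I (r : F0), D a I (algebraMap F0 F r) = 0 := by
    intro a I
    rw [hD]
    refine sysD_prop (fun D : Derivation ℤ F F => ∀ r : F0, D (algebraMap F0 F r) = 0) ?_ ?_ ?_ ?_
      hDbk a I
    · intro r; rfl
    · intro D E h h' r
      rw [Derivation.add_apply, h, h', add_zero]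
    · intro q r
      rw [Derivation.smul_apply, hDbk, smul_zero]
    · intro D h r
      rw [Derivation.neg_apply, h, neg_zero]
  -- the loss
  choose q hq0 hqf hq using hgood
  have hfinI : ∀ a, {I : Fin (n + 1) →₀ ℕ | I.degree = d a}.Finite := fun a =>
    (Finsupp.finite_of_degree_le (d a)).subset fun I hI => le_of_eq hI
  obtain ⟨Q, hQ⟩ : ∃ Q : Place k F → ℤ, ∀ v, Q v = ∑ a, ∑ I ∈ (hfinI a).toFinset, q a I v :=
    ⟨_, fun _ => rfl⟩
  have hQ0 : ∀ v, 0 ≤ Q v := fun v => by
    rw [hQ]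
    exact Finset.sum_nonneg fun a _ => Finset.sum_nonneg fun I _ => hq0 a I v
  have hQf : {v | Q v ≠ 0}.Finite := by
    have h1 : (⋃ a : α, ⋃ I ∈ (hfinI a).toFinset, {v | q a I v ≠ 0}).Finite :=
      Set.finite_iUnion fun a => (hfinI a).toFinset.finite_toSet.biUnion fun I _ => hqf a I
    refine h1.subset fun v hv => ?_
    by_contra hcon
    simp only [Set.mem_iUnion, not_exists, Set.mem_ofPred_eq, not_not] at hcon
    apply hv
    rw [hQ]
    exact Finset.sum_eq_zero fun a _ => Finset.sum_eq_zero fun I hI => hcon a I hI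
  have hQle : ∀ a (I : Fin (n + 1) →₀ ℕ), I.degree = d a → ∀ v, q a I v ≤ Q v := by
    intro a I hI v
    rw [hQ]
    refine le_trans ?_ (Finset.single_le_sum (f := fun a => ∑ I ∈ (hfinI a).toFinset, q a I v)
      (fun a _ => Finset.sum_nonneg fun I _ => hq0 a I v) (Finset.mem_univ a))
    exact Finset.single_le_sum (f := fun I => q a I v) (fun I _ => hq0 a I v)
      (by rw [Set.Finite.mem_toFinset]; exact hI)
  obtain ⟨C1, hC1⟩ := sum_loss (k := k) hQ0 hQf
  obtain ⟨C3, hC3⟩ := sum_under (k := k) hQ0 hQf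
  obtain ⟨S0, hS0⟩ := exists_supp (k := k) (Finset.univ : Finset α) fun a => (H a).coeff (I0 a)
  refine ⟨fun v => (Fintype.card α + m + 3) * Q v + if v ∈ S0 then 1 else 0, fun v => ?_, ?_, ?_⟩
  · have h1 := mul_nonneg (show (0 : ℤ) ≤ Fintype.card α + m + 3 by positivity) (hQ0 v)
    dsimp only
    split_ifs
    · omega
    · omega
  · refine (hQf.union (Finset.finite_toSet S0)).subset fun v hv => ?_
    by_contra hcon
    simp only [Set.mem_union, Set.mem_ofPred_eq, not_or, not_not, Finset.mem_coe] at hcon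
    apply hv
    dsimp only
    rw [hcon.1, if_neg hcon.2, mul_zero, add_zero]
  intro L _ _ _ _ _ _ x hx hxV
  have hLz : CharZero L := charZero_of_injective_algebraMap (algebraMap k L).injective
  let _ : Algebra F0 L := ((algebraMap F L).comp (algebraMap F0 F)).toAlgebra
  choose D' hD' hDl using fun a I => hq a I L
  obtain ⟨HL, hHL⟩ : ∃ HL : α → MvPolynomial (Fin (n + 1)) L, ∀ a,
    HL a = map (algebraMap F L) (G a) := ⟨_, fun _ => rfl⟩
  obtain ⟨hqfin, -⟩ := hC1 L
  obtain ⟨hufin, -⟩ := hC3 L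
  obtain ⟨el, hel⟩ : ∃ el : Place k L → ℤ, ∀ P, el P =
    ((ram F P : ℤ) - 1) + ram F P * Q (under F P) := ⟨_, fun _ => rfl⟩
  obtain ⟨ql, hql⟩ : ∃ ql : Place k L → ℤ, ∀ P, ql P = ram F P * Q (under F P) :=
    ⟨_, fun _ => rfl⟩
  have hql0 : ∀ P, 0 ≤ ql P := fun P => by
    rw [hql]
    exact mul_nonneg (by positivity) (hQ0 _)
  have hsys : SysS k HL d D' (sysE I0) ql el := by
    refine ⟨fun a => by rw [hHL]; exact (hGh a).map _, ?_, hql0, fun P => ?_,
      fun P a I hI => ?_, fun P δ hδ a I hI g f hf => ?_, ?_, ?_⟩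
    · intro a b I J hI hJ
      rw [hHL, coeff_map, hD', hdual a b I J hI hJ]
      split_ifs
      · simp
      · simp
      · simp
    · rw [hel]
      have h1 := (ram_spec (F := F) P).1
      have h2 := hql0 P
      rw [hql] at h2
      omega
    · rw [hel]
      refine (hDl a I P).1.mono ?_
      have h1 := hQle a I hI (under F P)
      have h2 : (0 : ℤ) ≤ ram F P := by positivity
      nlinarith
    · rw [hql]
      refine ((hDl a I P).2 δ hδ g f hf).mono ?_
      have h1 := hQle a I hI (under F P)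
      have h2 : (0 : ℤ) ≤ ram F P := by positivity
      nlinarith
    · simp only [hql]
      exact hufin
    · simp only [hel]
      exact hqfin
  have hDk' : ∀ a I (r : F0), D' a I (algebraMap F0 L r) = 0 := by
    intro a I r
    change D' a I (algebraMap F L (algebraMap F0 F r)) = 0
    rw [hD', hDk, map_zero]
  have htr : Algebra.trdeg F0 (coords F0 x) ≤ m := by
    refine hV L x hx fun f hf => ?_
    have h1 := hxV f hf
    rw [aeval_eq_eval_map, map_map, eval_map] at h1
    rw [aeval_def]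
    exact h1
  obtain ⟨W, hWm, hxW, hDW⟩ := exists_W hx htr
  obtain ⟨Θ, hΘ, c, hc, hloc⟩ := theta_sys hsys hx W hWm hxW fun a I _ => hDW (D' a I) (hDk' a I)
  -- the values of the normalised forms
  have hval : ∀ a, eval x (HL a) = algebraMap F L ((H a).coeff (I0 a))⁻¹ * aeval x (H a) := by
    intro a
    rw [hHL, hG, map_mul, map_mul, map_C, eval_C, aeval_eq_eval_map]
  have hs0 : ∀ a, algebraMap F L ((H a).coeff (I0 a))⁻¹ ≠ 0 := fun a => by
    rw [Ne, map_eq_zero]; exact inv_ne_zero (hI0 a)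
  have hiff : ∀ a, eval x (HL a) = 0 ↔ aeval x (H a) = 0 := fun a => by
    rw [hval, mul_eq_zero]
    exact ⟨fun h => h.resolve_left (hs0 a), Or.inr⟩
  have hE1 : ((Finset.univ.filter fun a => eval x (HL a) = 0).card : ℤ) =
      {a | aeval x (H a) = 0}.ncard := by
    rw [Set.ncard_eq_toFinset_card']
    congr 2
    ext a
    rw [Finset.mem_filter, Set.mem_toFinset, Set.mem_ofPred_eq, hiff]
    exact ⟨fun h => h.2, fun h => ⟨Finset.mem_univ _, h⟩⟩
  have hBc : ((Finset.univ.filter fun a => eval x (HL a) ≠ 0).card : ℤ) ≤ Fintype.card α := by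
    exact_mod_cast Finset.card_le_univ _
  rw [hE1] at hc
  refine ⟨Θ, hΘ, c, hc, fun P => le_trans ?_ (hloc P)⟩
  have hr1 : (1 : ℤ) ≤ ram F P := by exact_mod_cast (ram_spec (F := F) P).1
  have hQP := hQ0 (under F P)
  have h1 : (if ∃ a, eval x (HL a) ≠ 0 ∧ d a * pord P x < P.ord (eval x (HL a)) then (1 : ℤ)
      else 0) ≤ (if ∃ a, aeval x (H a) ≠ 0 ∧ d a * pord P x < P.ord (aeval x (H a)) then 1 else 0) +
        ram F P * if under F P ∈ S0 then 1 else 0 := by
    by_cases h : ∃ a, eval x (HL a) ≠ 0 ∧ d a * pord P x < P.ord (eval x (HL a))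
    swap
    · rw [if_neg h]
      have h2 : (0 : ℤ) ≤ if ∃ a, aeval x (H a) ≠ 0 ∧ d a * pord P x < P.ord (aeval x (H a)) then
        1 else 0 := by split_ifs <;> norm_num
      have h3 : (0 : ℤ) ≤ if under F P ∈ S0 then 1 else 0 := by split_ifs <;> norm_num
      nlinarith
    rw [if_pos h]
    obtain ⟨a, ha0, ha⟩ := h
    have haE : aeval x (H a) ≠ 0 := fun h => ha0 ((hiff a).2 h)
    by_cases hu : under F P ∈ S0
    · rw [if_pos hu]
      have h2 : (0 : ℤ) ≤ if ∃ a, aeval x (H a) ≠ 0 ∧ d a * pord P x < P.ord (aeval x (H a)) then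
        1 else 0 := by split_ifs <;> norm_num
      linarith
    · rw [if_neg hu, mul_zero, add_zero, if_pos]
      refine ⟨a, haE, ?_⟩
      rw [hval, P.ord_mul (hs0 a) haE, ord_under] at ha
      have h1 : (under F P).ord ((H a).coeff (I0 a)) = 0 := by
        by_contra h
        exact hu (hS0 a (Finset.mem_univ _) _ h)
      rw [(under F P).ord_inv, h1, neg_zero, mul_zero, zero_add] at ha
      exact ha
  have h2 : (((Finset.univ.filter fun a => eval x (HL a) ≠ 0).card : ℤ) + m + 2) * ql P ≤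
      (Fintype.card α + m + 2) * ql P :=
    mul_le_mul_of_nonneg_right (by linarith) (hql0 P)
  have h3 : el P + (Fintype.card α + m + 2) * ql P = ((ram F P : ℤ) - 1) +
      ram F P * ((Fintype.card α + m + 3) * Q (under F P)) := by
    rw [hel, hql]
    ring
  have h4 : (ram F P : ℤ) * ((Fintype.card α + m + 3) * Q (under F P) +
      if under F P ∈ S0 then 1 else 0) = ram F P * ((Fintype.card α + m + 3) * Q (under F P)) +
        ram F P * if under F P ∈ S0 then 1 else 0 := mul_add _ _ _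
  dsimp only
  rw [h4]
  linarith

end Pool.Agent.N95.HN
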